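import Mathlib

set_option autoImplicit false
set_option linter.unusedSectionVars false

/-!
# Designs for drawn strong Ramsey games (MP_9571c3_co)

A `Design V d k N ρ` is a `k`-uniform hypergraph on the finite vertex set `V` made of a core
`C` with `N` edges and of `d` further edges, all containing the vertex `w` : the two invariant
edges `L1`, `L2` and the `d - 2` flexible edges in `Fl`.
-/

namespace Pool.Agent.Lib.MP_9571c3_co

open Finset

/-- The list of combinatorial properties used by the drawing strategy. -/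
structure Design (V : Type) [Fintype V] [DecidableEq V] (d k N ρ : ℕ) where
  C : Finset (Finset V)
  Fl : Finset (Finset V)
  L1 : Finset V
  L2 : Finset V
  w : V
  z : V
  hd : 3 ≤ d
  hN : 4 ≤ N
  hρ : 2 * N + 2 * d + 10 ≤ ρ
  cardC : C.card = N
  cardFl : Fl.card + 2 = d
  L12 : L1 ≠ L2
  L1Fl : L1 ∉ Fl
  L2Fl : L2 ∉ Fl
  wC : ∀ e ∈ C, w ∉ e
  wL1 : w ∈ L1
  wL2 : w ∈ L2
  wFl : ∀ e ∈ Fl, w ∈ e
  zw : z ≠ w
  zH : ∀ e ∈ C ∪ insert L1 (insert L2 Fl), z ∈ e
  cardE : ∀ e ∈ C ∪ insert L1 (insert L2 Fl), e.card = k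
  role : ∀ e ∈ C ∪ insert L1 (insert L2 Fl), ∀ f ∈ C ∪ insert L1 (insert L2 Fl),
    ∀ e' ∈ C ∪ insert L1 (insert L2 Fl), ∀ f' ∈ C ∪ insert L1 (insert L2 Fl),
    e ≠ f → e' ≠ f' → (e ∩ f).card = (e' ∩ f').card → (e = e' ∧ f = f') ∨ (e = f' ∧ f = e')
  deg : ∀ a, a ≠ w → d + 2 ≤ (C.filter (fun e => a ∈ e)).card
  codeg : ∀ b, b ≠ z → 2 ≤ (C.filter (fun e => b ∉ e)).card
  sep : ∀ e, (e ∈ C ∨ e = L1 ∨ e = L2) → ∀ a ∈ e, ∀ b, b ∉ e →
    d + 1 ≤ ((C ∪ insert L1 (insert L2 Fl)).filter (fun f => ¬ (a ∈ f ↔ b ∈ f))).card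
  swapC : ∀ e ∈ C, ∃ b ∈ e, ∃ R : Finset V, ρ ≤ R.card ∧
    ∀ a ∈ R, a ≠ w ∧ a ∉ e ∧ ∀ f ∈ C, f ≠ e → (a ∈ f ↔ b ∈ f)
  swapF : ∀ e ∈ Fl, ∃ b ∈ e, b ≠ w ∧ ∃ R : Finset V, ρ ≤ R.card ∧
    ∀ a ∈ R, a ∉ e ∧ ∀ f ∈ C ∪ insert L1 (insert L2 Fl), f ≠ e → (a ∈ f ↔ b ∈ f)
  close : ∀ f ∈ Fl, ∀ f' ∈ Fl, k + (L1 ∩ L2).card < (f ∩ L1).card + (f' ∩ L1).card

variable {V : Type} [Fintype V] [DecidableEq V] {d k N ρ : ℕ}

namespace Design

variable (D : Design V d k N ρ)

/-- the edges at `w` -/
def W : Finset (Finset V) := insert D.L1 (insert D.L2 D.Fl)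

/-- all edges -/
def H : Finset (Finset V) := D.C ∪ D.W

lemma mem_W {e : Finset V} : e ∈ D.W ↔ e = D.L1 ∨ e = D.L2 ∨ e ∈ D.Fl := by
  simp [W]

lemma mem_H {e : Finset V} : e ∈ D.H ↔ e ∈ D.C ∨ e ∈ D.W := by
  simp [H]

lemma C_sub : D.C ⊆ D.H := subset_union_left
lemma W_sub : D.W ⊆ D.H := subset_union_right

lemma w_mem_of_W {e : Finset V} (he : e ∈ D.W) : D.w ∈ e := by
  rcases D.mem_W.mp he with rfl | rfl | h
  · exact D.wL1
  · exact D.wL2
  · exact D.wFl e h

lemma disj : Disjoint D.C D.W := by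
  rw [Finset.disjoint_left]
  intro e he he'
  exact D.wC e he (D.w_mem_of_W he')

lemma cardW : D.W.card = d := by
  have h1 : D.L1 ∉ insert D.L2 D.Fl := by
    rw [mem_insert]
    rintro (h | h)
    · exact D.L12 h
    · exact D.L1Fl h
  rw [W, card_insert_of_notMem h1, card_insert_of_notMem D.L2Fl]
  have := D.cardFl
  omega

lemma cardH : D.H.card = N + d := by
  rw [H, card_union_of_disjoint D.disj, D.cardC, D.cardW]

lemma L1_mem_W : D.L1 ∈ D.W := by simp [W]
lemma L2_mem_W : D.L2 ∈ D.W := by simp [W]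
lemma L1_mem_H : D.L1 ∈ D.H := D.W_sub D.L1_mem_W
lemma L2_mem_H : D.L2 ∈ D.H := D.W_sub D.L2_mem_W
lemma Fl_sub_W : D.Fl ⊆ D.W := by
  intro e he
  simp [W, he]

lemma z_mem {e : Finset V} (he : e ∈ D.H) : D.z ∈ e := D.zH e he

lemma card_edge {e : Finset V} (he : e ∈ D.H) : e.card = k := D.cardE e he

lemma role' {e f e' f' : Finset V} (he : e ∈ D.H) (hf : f ∈ D.H) (he' : e' ∈ D.H)
    (hf' : f' ∈ D.H) (h1 : e ≠ f) (h2 : e' ≠ f') (h : (e ∩ f).card = (e' ∩ f').card) :
    (e = e' ∧ f = f') ∨ (e = f' ∧ f = e') :=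
  D.role e he f hf e' he' f' hf' h1 h2 h

lemma mem_W_of_w_mem {e : Finset V} (he : e ∈ D.H) (hw : D.w ∈ e) : e ∈ D.W := by
  rcases D.mem_H.mp he with h | h
  · exact absurd hw (D.wC e h)
  · exact h

end Design

section images

variable {g g' : V → ℕ}

lemma mem_im_iff (hg : Function.Injective g) {a : V} {e : Finset V} :
    g a ∈ e.image g ↔ a ∈ e := by
  constructor
  · intro h
    obtain ⟨b, hb, hab⟩ := mem_image.mp h
    rwa [← hg hab]
  · exact fun h => mem_image_of_mem g h

lemma im_inj (hg : Function.Injective g) {e f : Finset V} (h : e.image g = f.image g) :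
    e = f := Finset.image_injective hg h

lemma card_inter_im (hg : Function.Injective g) (e f : Finset V) :
    (e.image g ∩ f.image g).card = (e ∩ f).card := by
  rw [← Finset.image_inter _ _ hg, card_image_of_injective _ hg]

end images

namespace Design

variable (D : Design V d k N ρ) {g g' : V → ℕ}

/-- If two copies share at least three edges, every shared edge plays the same role in both. -/
lemma roles (hg : Function.Injective g) (hg' : Function.Injective g')
    (h3 : 3 ≤ (D.H.filter (fun e => ∃ e' ∈ D.H, e.image g = e'.image g')).card)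
    {e e' : Finset V} (he : e ∈ D.H) (he' : e' ∈ D.H) (hee : e.image g = e'.image g') :
    e = e' := by
  set X := D.H.filter (fun e => ∃ e' ∈ D.H, e.image g = e'.image g') with hX
  have heX : e ∈ X := mem_filter.mpr ⟨he, e', he', hee⟩
  have h2 : 1 < (X.erase e).card := by
    rw [card_erase_of_mem heX]; omega
  obtain ⟨f, hf, h, hh, hfh⟩ := Finset.one_lt_card.mp h2
  rw [mem_erase] at hf hh
  obtain ⟨hfe, hfX⟩ := hf
  obtain ⟨hhe, hhX⟩ := hh
  obtain ⟨hfH, f', hf', hff⟩ := mem_filter.mp hfX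
  obtain ⟨hhH, h', hh', hhh⟩ := mem_filter.mp hhX
  have c1 : (e ∩ f).card = (e' ∩ f').card := by
    rw [← card_inter_im hg, hee, hff, card_inter_im hg']
  have c2 : (e ∩ h).card = (e' ∩ h').card := by
    rw [← card_inter_im hg, hee, hhh, card_inter_im hg']
  have n1 : e' ≠ f' := by
    intro hh0
    apply hfe
    apply (im_inj hg _)
    rw [hff, hee, hh0]
  have n2 : e' ≠ h' := by
    intro hh0
    apply hhe
    apply (im_inj hg _)
    rw [hhh, hee, hh0]
  rcases D.role' he hfH he' hf' hfe.symm n1 c1 with ⟨h1, _⟩ | ⟨h1, h1'⟩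
  · exact h1
  · rcases D.role' he hhH he' hh' hhe.symm n2 c2 with ⟨h2, _⟩ | ⟨h2, h2'⟩
    · exact h2
    · exact absurd (h1'.trans h2'.symm) hfh

/-- The set of edges on which two maps agree. -/
def K (g g' : V → ℕ) : Finset (Finset V) := D.H.filter (fun e => e.image g = e.image g')

lemma K_symm (g g' : V → ℕ) : D.K g g' = D.K g' g := by
  unfold K
  congr 1
  ext e
  exact eq_comm

lemma mem_K {e : Finset V} : e ∈ D.K g g' ↔ e ∈ D.H ∧ e.image g = e.image g' := by
  simp [K]

lemma K_sub : D.K g g' ⊆ D.H := filter_subset _ _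

lemma K_inter (hK : N ≤ (D.K g g').card) {P : Finset (Finset V)} (hP : P ⊆ D.H)
    (hc : d + 1 ≤ P.card) : ∃ f ∈ P, f ∈ D.K g g' := by
  have h1 : D.H.card < (D.K g g').card + P.card := by
    rw [D.cardH]; omega
  obtain ⟨f, hf⟩ := Finset.inter_nonempty_of_card_lt_card_add_card D.K_sub hP h1
  rw [mem_inter] at hf
  exact ⟨f, hf.2, hf.1⟩

lemma mem_iff_of_K (hg : Function.Injective g) (hg' : Function.Injective g') {f : Finset V}
    (hf : f ∈ D.K g g') {a b : V} (hab : g a = g' b) : a ∈ f ↔ b ∈ f := by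
  rw [← mem_im_iff hg, hab, (D.mem_K.mp hf).2, mem_im_iff hg']

lemma V1 (hg : Function.Injective g) (hg' : Function.Injective g')
    (hK : N ≤ (D.K g g').card) {a b : V} (hab : g a = g' b) {e : Finset V}
    (he : e ∈ D.C ∨ e = D.L1 ∨ e = D.L2) : a ∈ e ↔ b ∈ e := by
  by_contra hcon
  have h1 : d + 1 ≤ (D.H.filter (fun f => ¬ (a ∈ f ↔ b ∈ f))).card := by
    by_cases ha : a ∈ e
    · have hb : b ∉ e := fun hb => hcon ⟨fun _ => hb, fun _ => ha⟩
      exact D.sep e he a ha b hb
    · have hb : b ∈ e := by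
        by_contra hb
        exact hcon ⟨fun h => absurd h ha, fun h => absurd h hb⟩
      have := D.sep e he b hb a ha
      refine this.trans (le_of_eq ?_)
      congr 1
      ext f
      simp only [mem_filter, H, W]
      constructor
      · rintro ⟨h1, h2⟩
        exact ⟨h1, fun h => h2 h.symm⟩
      · rintro ⟨h1, h2⟩
        exact ⟨h1, fun h => h2 h.symm⟩
  obtain ⟨f, hfP, hfK⟩ := D.K_inter hK (filter_subset _ _) h1
  exact (mem_filter.mp hfP).2 (D.mem_iff_of_K hg hg' hfK hab)

lemma V2 (hK : N ≤ (D.K g g').card) {a : V} (ha : a ≠ D.w) : ∃ b, g a = g' b := by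
  have h1 := D.deg a ha
  obtain ⟨f, hfP, hfK⟩ := D.K_inter hK ((filter_subset (fun e => a ∈ e) D.C).trans D.C_sub)
    (by omega)
  have haf : a ∈ f := (mem_filter.mp hfP).2
  have : g a ∈ f.image g' := by
    rw [← (D.mem_K.mp hfK).2]
    exact mem_image_of_mem g haf
  obtain ⟨b, _, hb⟩ := mem_image.mp this
  exact ⟨b, hb.symm⟩

lemma V3 (hg : Function.Injective g) (hg' : Function.Injective g')
    (hK : N ≤ (D.K g g').card) {b : V} (hb : g D.w = g' b) : b = D.w := by
  by_contra hbw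
  have h1 := D.deg b hbw
  have h2 : (D.C.filter (fun e => b ∈ e)).Nonempty := by
    rw [← card_pos]; omega
  obtain ⟨e, he⟩ := h2
  rw [mem_filter] at he
  exact D.wC e he.1 ((D.V1 hg hg' hK hb (Or.inl he.1)).mpr he.2)

lemma V4 (hg : Function.Injective g) (hg' : Function.Injective g')
    (hK : N ≤ (D.K g g').card) {e : Finset V} (he : e ∈ D.C) : e.image g = e.image g' := by
  apply Finset.eq_of_subset_of_card_le
  · intro y hy
    obtain ⟨a, ha, rfl⟩ := mem_image.mp hy
    have haw : a ≠ D.w := fun h => D.wC e he (h ▸ ha)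
    obtain ⟨b, hb⟩ := D.V2 hK haw
    rw [hb]
    exact mem_image_of_mem g' ((D.V1 hg hg' hK hb (Or.inl he)).mp ha)
  · rw [card_image_of_injective _ hg, card_image_of_injective _ hg']

lemma V5 (hg : Function.Injective g) (hg' : Function.Injective g')
    (hK : N ≤ (D.K g g').card) {e : Finset V} (he : e = D.L1 ∨ e = D.L2) :
    (e.erase D.w).image g = (e.erase D.w).image g' := by
  apply Finset.eq_of_subset_of_card_le
  · intro y hy
    obtain ⟨a, ha, rfl⟩ := mem_image.mp hy
    rw [mem_erase] at ha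
    obtain ⟨b, hb⟩ := D.V2 hK ha.1
    rw [hb]
    apply mem_image_of_mem g'
    rw [mem_erase]
    refine ⟨?_, (D.V1 hg hg' hK hb (Or.inr he)).mp ha.2⟩
    intro hbw
    rw [hbw] at hb
    rw [D.K_symm] at hK
    exact ha.1 (D.V3 hg' hg hK hb.symm)
  · rw [card_image_of_injective _ hg, card_image_of_injective _ hg']

lemma V6 (hg : Function.Injective g) (hg' : Function.Injective g')
    (hK : N ≤ (D.K g g').card) (hw : g D.w = g' D.w) {e : Finset V}
    (he : e = D.L1 ∨ e = D.L2) : e.image g = e.image g' := by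
  have hwe : D.w ∈ e := by
    rcases he with rfl | rfl
    · exact D.wL1
    · exact D.wL2
  rw [← insert_erase hwe, image_insert, image_insert, hw, D.V5 hg hg' hK he]

lemma V7 (hg : Function.Injective g) (hg' : Function.Injective g')
    (hK : N ≤ (D.K g g').card) {f : Finset V} (hf : f ∈ D.K g g') (hfW : f ∈ D.W) :
    g D.w = g' D.w := by
  have : g D.w ∈ f.image g' := by
    rw [← (D.mem_K.mp hf).2]
    exact mem_image_of_mem g (D.w_mem_of_W hfW)
  obtain ⟨b, _, hb⟩ := mem_image.mp this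
  have := D.V3 hg hg' hK hb.symm
  rw [← hb, this]

/-- The universal vertex is determined by `N - 1` core edges. -/
lemma Vz (hg' : Function.Injective g')
    (hK : N ≤ (D.C.filter (fun e => e.image g = e.image g')).card + 1) : g D.z = g' D.z := by
  have hN := D.hN
  set Kc := D.C.filter (fun e => e.image g = e.image g') with hKc
  have hne : Kc.Nonempty := by
    rw [← card_pos]; omega
  obtain ⟨f, hf⟩ := hne
  obtain ⟨hfC, hfe⟩ := mem_filter.mp hf
  have h1 : g D.z ∈ f.image g' := by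
    rw [← hfe]
    exact mem_image_of_mem g (D.z_mem (D.C_sub hfC))
  obtain ⟨b, _, hb⟩ := mem_image.mp h1
  by_cases hbz : b = D.z
  · rw [← hb, hbz]
  · exfalso
    have h2 := D.codeg b hbz
    have h3 : D.C.card < Kc.card + (D.C.filter (fun e => b ∉ e)).card := by
      rw [D.cardC]; omega
    obtain ⟨f', hf'⟩ := Finset.inter_nonempty_of_card_lt_card_add_card
      (filter_subset _ _) (filter_subset _ _) h3
    rw [mem_inter, mem_filter, mem_filter] at hf'
    obtain ⟨⟨hf'C, hf'e⟩, _, hbf'⟩ := hf'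
    apply hbf'
    rw [← mem_im_iff hg', hb, ← hf'e]
    exact mem_image_of_mem g (D.z_mem (D.C_sub hf'C))

/-- number of edges of the copy `g` lying in `G` -/
def cnt (G : Finset (Finset ℕ)) (g : V → ℕ) : ℕ := (D.H.filter (fun e => e.image g ∈ G)).card

lemma cnt_le_card (G : Finset (Finset ℕ)) (hg : Function.Injective g) : D.cnt G g ≤ G.card := by
  unfold cnt
  rw [← card_image_of_injective (D.H.filter (fun e => e.image g ∈ G)) (Finset.image_injective hg)]
  apply card_le_card
  intro y hy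
  obtain ⟨e, he, rfl⟩ := mem_image.mp hy
  exact (mem_filter.mp he).2

lemma cnt_insert_le (G : Finset (Finset ℕ)) (hg : Function.Injective g) (x : Finset ℕ) :
    D.cnt (insert x G) g ≤ D.cnt G g + 1 := by
  unfold cnt
  have h1 : D.H.filter (fun e => e.image g ∈ insert x G) ⊆
      D.H.filter (fun e => e.image g ∈ G) ∪ D.H.filter (fun e => e.image g = x) := by
    intro e he
    rw [mem_filter, mem_insert] at he
    rw [mem_union, mem_filter, mem_filter]
    rcases he.2 with h | h
    · exact Or.inr ⟨he.1, h⟩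
    · exact Or.inl ⟨he.1, h⟩
  have h2 : (D.H.filter (fun e => e.image g = x)).card ≤ 1 := by
    rw [card_le_one]
    intro a ha b hb
    rw [mem_filter] at ha hb
    exact im_inj hg (ha.2.trans hb.2.symm)
  calc _ ≤ _ := card_le_card h1
    _ ≤ _ := card_union_le _ _
    _ ≤ _ := by omega

/-- Low degree lemma. -/
lemma LD {G : Finset (Finset ℕ)} (hg : Function.Injective g) (hc : N + 1 ≤ D.cnt G g)
    {a : V} (ha : a ≠ D.w) : 3 ≤ (G.filter (fun y => g a ∈ y)).card := by
  have h1 := D.deg a ha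
  set A := D.C.filter (fun e => a ∈ e) with hA
  set B := D.H.filter (fun e => e.image g ∈ G) with hB
  have hAB : A.card + B.card ≤ (A ∩ B).card + D.H.card := by
    rw [← card_union_add_card_inter A B, add_comm]
    have : (A ∪ B).card ≤ D.H.card := by
      apply card_le_card
      apply union_subset ((filter_subset _ _).trans D.C_sub) (filter_subset _ _)
    omega
  rw [D.cardH] at hAB
  have hBc : N + 1 ≤ B.card := hc
  have h3 : 3 ≤ (A ∩ B).card := by omega
  refine h3.trans ?_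
  rw [← card_image_of_injective (A ∩ B) (Finset.image_injective hg)]
  apply card_le_card
  intro y hy
  obtain ⟨e, he, rfl⟩ := mem_image.mp hy
  rw [mem_inter, hA, hB, mem_filter, mem_filter] at he
  rw [mem_filter]
  exact ⟨he.2.2, mem_image_of_mem g he.1.2⟩

/-- Low degree lemma for complete cores. -/
lemma LD' {G : Finset (Finset ℕ)} (hg : Function.Injective g)
    (hc : ∀ e ∈ D.C, e.image g ∈ G)
    {a : V} (ha : a ≠ D.w) : 3 ≤ (G.filter (fun y => g a ∈ y)).card := by
  have h1 := D.deg a ha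
  have hd := D.hd
  set A := D.C.filter (fun e => a ∈ e) with hA
  have h3 : 3 ≤ A.card := by omega
  refine h3.trans ?_
  rw [← card_image_of_injective A (Finset.image_injective hg)]
  apply card_le_card
  intro y hy
  obtain ⟨e, he, rfl⟩ := mem_image.mp hy
  rw [hA, mem_filter] at he
  rw [mem_filter]
  exact ⟨hc e he.1, mem_image_of_mem g he.2⟩

end Design

end Pool.Agent.Lib.MP_9571c3_co
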