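import Mathlib
import Pool.Agent.Lib.MP_9571c3_co.Design

set_option autoImplicit false
set_option linter.unusedSectionVars false

/-!
# The explicit design

`F` is a finite field; the core edges are indexed by the points of `F × F`. The rows are the
lines of the affine plane.
-/

namespace Pool.Agent.Lib.MP_9571c3_co

open Finset

namespace Cons

variable {F : Type} [Field F] [Fintype F] [DecidableEq F]

/-- incidence of lines (`inl (a, b)` is `y = a x + b`, `inr c` is `x = c`) and points -/
def R (r : (F × F) ⊕ F) (s : F × F) : Bool :=
  match r with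
  | Sum.inl ab => decide (s.2 = ab.1 * s.1 + ab.2)
  | Sum.inr c => decide (s.1 = c)

/-- a parametrisation of the points of a line -/
def par (r : (F × F) ⊕ F) (t : F) : F × F :=
  match r with
  | Sum.inl ab => (t, ab.1 * t + ab.2)
  | Sum.inr c => (c, t)

lemma par_inj (r : (F × F) ⊕ F) : Function.Injective (par r) := by
  rcases r with ab | c
  · intro t t' h
    exact (Prod.mk.inj h).1
  · intro t t' h
    exact (Prod.mk.inj h).2

lemma R_par (r : (F × F) ⊕ F) (t : F) : R r (par r t) = true := by
  rcases r with ab | c
  · simp [R, par]
  · simp [R, par]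

lemma eq_par (r : (F × F) ⊕ F) (s : F × F) (h : R r s = true) : ∃ t, s = par r t := by
  rcases r with ab | c
  · refine ⟨s.1, ?_⟩
    simp only [R, decide_eq_true_eq] at h
    simp only [par]
    rw [← h]
  · refine ⟨s.2, ?_⟩
    simp only [R, decide_eq_true_eq] at h
    simp only [par]
    rw [← h]

lemma card_line (r : (F × F) ⊕ F) :
    (univ.filter (fun s : F × F => R r s = true)).card = Fintype.card F := by
  have : univ.filter (fun s : F × F => R r s = true) = univ.image (par r) := by
    ext s
    simp only [mem_filter, mem_univ, true_and, mem_image]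
    constructor
    · intro h
      obtain ⟨t, ht⟩ := eq_par r s h
      exact ⟨t, ht.symm⟩
    · rintro ⟨t, rfl⟩
      exact R_par r t
  rw [this, card_image_of_injective _ (par_inj r), card_univ]

/-- two distinct lines meet in at most one point -/
lemma meet (r r' : (F × F) ⊕ F) (hr : r ≠ r') :
    (univ.filter (fun s : F × F => R r s = true ∧ R r' s = true)).card ≤ 1 := by
  rw [card_le_one]
  intro s hs t ht
  simp only [mem_filter, mem_univ, true_and] at hs ht
  obtain ⟨s1, s2⟩ := s
  obtain ⟨t1, t2⟩ := t
  rcases r with ⟨a, b⟩ | c
  · rcases r' with ⟨a', b'⟩ | c'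
    · simp only [R, decide_eq_true_eq] at hs ht
      obtain ⟨hs1, hs2⟩ := hs
      obtain ⟨ht1, ht2⟩ := ht
      have h1 : (a - a') * s1 = b' - b := by linear_combination hs2 - hs1
      have h2 : (a - a') * t1 = b' - b := by linear_combination ht2 - ht1
      by_cases ha : a = a'
      · exfalso
        apply hr
        rw [ha, sub_self, zero_mul] at h1
        have : b' = b := by linear_combination -h1
        rw [ha, this]
      · have ha' : a - a' ≠ 0 := sub_ne_zero.mpr ha
        have h3 : s1 = t1 := mul_left_cancel₀ ha' (h1.trans h2.symm)
        rw [h3] at hs1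
        rw [hs1, ht1, h3]
    · simp only [R, decide_eq_true_eq] at hs ht
      obtain ⟨hs1, hs2⟩ := hs
      obtain ⟨ht1, ht2⟩ := ht
      rw [hs1, ht1, hs2, ht2]
  · rcases r' with ⟨a', b'⟩ | c'
    · simp only [R, decide_eq_true_eq] at hs ht
      obtain ⟨hs1, hs2⟩ := hs
      obtain ⟨ht1, ht2⟩ := ht
      rw [hs2, ht2, hs1, ht1]
    · exfalso
      simp only [R, decide_eq_true_eq] at hs
      apply hr
      rw [← hs.1, ← hs.2]

lemma diff_card (r r' : (F × F) ⊕ F) (hr : r ≠ r') :
    Fintype.card F ≤ (univ.filter (fun s : F × F => R r s = true ∧ R r' s = false)).card + 1 := by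
  have h1 := card_line r
  have h2 := meet r r' hr
  have h3 : univ.filter (fun s : F × F => R r s = true) =
      univ.filter (fun s : F × F => R r s = true ∧ R r' s = false) ∪
      univ.filter (fun s : F × F => R r s = true ∧ R r' s = true) := by
    ext s
    simp only [mem_filter, mem_univ, true_and, mem_union]
    cases R r' s <;> simp
  have h4 := card_union_le (univ.filter (fun s : F × F => R r s = true ∧ R r' s = false))
    (univ.filter (fun s : F × F => R r s = true ∧ R r' s = true))
  rw [← h3, h1] at h4
  omega

/-- many points are on none of two lines -/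
lemma none_card (r r' : (F × F) ⊕ F) (hF : 3 ≤ Fintype.card F) :
    Fintype.card F ≤ (univ.filter (fun s : F × F => R r s = false ∧ R r' s = false)).card := by
  have h1 := card_line r
  have h1' := card_line r'
  have h3 : (univ : Finset (F × F)) =
      univ.filter (fun s : F × F => R r s = false ∧ R r' s = false) ∪
      (univ.filter (fun s : F × F => R r s = true) ∪
        univ.filter (fun s : F × F => R r' s = true)) := by
    ext s
    simp only [mem_filter, mem_univ, true_and, mem_union]
    cases R r s <;> cases R r' s <;> simp
  have h4 := card_union_le (univ.filter (fun s : F × F => R r s = false ∧ R r' s = false))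
    (univ.filter (fun s : F × F => R r s = true) ∪ univ.filter (fun s : F × F => R r' s = true))
  have h5 := card_union_le (univ.filter (fun s : F × F => R r s = true))
    (univ.filter (fun s : F × F => R r' s = true))
  rw [← h3, card_univ, Fintype.card_prod] at h4
  have h6 : 3 * Fintype.card F ≤ Fintype.card F * Fintype.card F :=
    Nat.mul_le_mul_right _ hF
  omega

/-- Separation of two (signed) rows. -/
lemma row_sep (r r' : (F × F) ⊕ F) (β β' : Bool) (h : r ≠ r') (hF : 3 ≤ Fintype.card F) :
    Fintype.card F ≤
      (univ.filter (fun s : F × F => ¬ ((R r s = β) ↔ (R r' s = β')))).card + 1 := by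
  by_cases hβ : β = β'
  · subst hβ
    refine (diff_card r r' h).trans (Nat.add_le_add_right (card_le_card ?_) 1)
    intro s hs
    simp only [mem_filter, mem_univ, true_and] at hs ⊢
    rw [hs.1, hs.2]
    cases β <;> simp
  · have h1 := none_card r r' hF
    have : (univ.filter (fun s : F × F => R r s = false ∧ R r' s = false)).card ≤
        (univ.filter (fun s : F × F => ¬ ((R r s = β) ↔ (R r' s = β')))).card := by
      apply card_le_card
      intro s hs
      simp only [mem_filter, mem_univ, true_and] at hs ⊢
      rw [hs.1, hs.2]
      cases β <;> cases β' <;> simp_all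
    omega

lemma row_card (r : (F × F) ⊕ F) (β : Bool) (hF : 3 ≤ Fintype.card F) :
    Fintype.card F ≤ (univ.filter (fun s : F × F => R r s = β)).card := by
  cases β
  · refine (none_card r r hF).trans (card_le_card ?_)
    intro s hs
    simp only [mem_filter, mem_univ, true_and] at hs ⊢
    exact hs.1
  · exact (card_line r).ge

/-- removing at most two points from a big set -/
lemma card_remove (A B : Finset (F × F)) (x y : F × F) (h : ∀ s ∈ A, s ≠ x → s ≠ y → s ∈ B) :
    A.card ≤ B.card + 2 := by
  have h1 : A ⊆ B ∪ {x, y} := by
    intro s hs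
    rw [mem_union, mem_insert, mem_singleton]
    by_cases hx : s = x
    · exact Or.inr (Or.inl hx)
    · by_cases hy : s = y
      · exact Or.inr (Or.inr hy)
      · exact Or.inl (h s hs hx hy)
  have h2 := (card_le_card h1).trans (card_union_le _ _)
  have h3 : ({x, y} : Finset (F × F)).card ≤ 2 := card_le_two
  omega

end Cons

end Pool.Agent.Lib.MP_9571c3_co
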