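import Mathlib
import Pool.Agent.Lib.MP_9571c3_co.Construct

set_option autoImplicit false
set_option linter.unusedSectionVars false

namespace Pool.Agent.Lib.MP_9571c3_co

open Finset

namespace Cons

variable {F : Type} [Field F] [Fintype F] [DecidableEq F]

/-- classes of coordinates -/
abbrev Cl (F : Type) (d : ℕ) : Type := ((F × F) × Bool) ⊕ Option (Fin d)

/-- indices of the edges -/
abbrev Ed (F : Type) (d : ℕ) : Type := (F × F) ⊕ Fin d

variable {d : ℕ} (q : Fin 4 → F)

/-- the row of a special class -/
def trow (t : Option (Fin d)) : F :=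
  match t with
  | none => q 0
  | some j => if j.val = 0 then q 1 else if j.val + 1 = d then q 2 else q 0

/-- the value of an edge on a class of coordinates -/
def val (e : Ed F d) (κ : Cl F d) : Bool :=
  match e, κ with
  | Sum.inl S', Sum.inl (S, γ) => if S' = S then γ else R (Sum.inl S) S'
  | Sum.inl S', Sum.inr t => R (Sum.inr (trow q t)) S'
  | Sum.inr _, Sum.inl (_, γ) => γ
  | Sum.inr _, Sum.inr none => false
  | Sum.inr i, Sum.inr (some j) => decide (i = j)

@[simp] lemma val_ll (S' S : F × F) (γ : Bool) :
    val (d := d) q (Sum.inl S') (Sum.inl (S, γ)) = if S' = S then γ else R (Sum.inl S) S' := rfl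
@[simp] lemma val_lr (S' : F × F) (t : Option (Fin d)) :
    val q (Sum.inl S') (Sum.inr t) = R (Sum.inr (trow q t)) S' := rfl
@[simp] lemma val_rl (i : Fin d) (S : F × F) (γ : Bool) :
    val q (Sum.inr i) (Sum.inl (S, γ)) = γ := rfl
@[simp] lemma val_rn (i : Fin d) :
    val q (Sum.inr i) (Sum.inr none : Cl F d) = false := rfl
@[simp] lemma val_rs (i j : Fin d) :
    val q (Sum.inr i) (Sum.inr (some j) : Cl F d) = decide (i = j) := rfl

/-- dependence on the second component of the class -/
def dp (e : Ed F d) (S : F × F) : Bool :=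
  match e with
  | Sum.inl S' => decide (S' = S)
  | Sum.inr _ => true

lemma dp_iff (e f : Ed F d) (S : F × F) :
    ((val q e (Sum.inl (S, true)) = val q f (Sum.inl (S, true))) ↔
      (val q e (Sum.inl (S, false)) = val q f (Sum.inl (S, false)))) ↔ (dp e S = dp f S) := by
  rcases e with e | e <;> rcases f with f | f
  · simp only [val_ll, dp]
    by_cases h1 : e = S <;> by_cases h2 : f = S <;> simp [h1, h2]
  · simp only [val_ll, val_rl, dp]
    by_cases h1 : e = S
    · simp [h1]
    · simp only [h1, if_false]
      cases R (Sum.inl S) e <;> simp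
  · simp only [val_ll, val_rl, dp]
    by_cases h1 : f = S
    · simp [h1]
    · simp only [h1, if_false]
      cases R (Sum.inl S) f <;> simp
  · simp [dp]

lemma exists_ne3 (hF : 3 ≤ Fintype.card F) (a b c : F × F) : ∃ s : F × F, s ≠ a ∧ s ≠ b ∧ s ≠ c := by
  by_contra hcon
  push Not at hcon
  have h1 : (univ : Finset (F × F)) ⊆ {a, b, c} := by
    intro s _
    simp only [mem_insert, mem_singleton]
    by_cases h1 : s = a
    · exact Or.inl h1
    · by_cases h2 : s = b
      · exact Or.inr (Or.inl h2)
      · exact Or.inr (Or.inr (hcon s h1 h2))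
  have h2 := card_le_card h1
  rw [card_univ, Fintype.card_prod] at h2
  have h3 : ({a, b, c} : Finset (F × F)).card ≤ 3 := card_le_three
  have h6 : 3 * Fintype.card F ≤ Fintype.card F * Fintype.card F :=
    Nat.mul_le_mul_right _ hF
  omega

/-- the agreement pattern of a pair of edges determines the pair -/
lemma sidon (hF : 3 ≤ Fintype.card F) (e f e' f' : Ed F d) (hef : e ≠ f) (hef' : e' ≠ f')
    (h : ∀ κ : Cl F d, (val q e κ = val q f κ) ↔ (val q e' κ = val q f' κ)) :
    (e = e' ∧ f = f') ∨ (e = f' ∧ f = e') := by
  have hdp : ∀ S : F × F, (dp e S = dp f S) ↔ (dp e' S = dp f' S) := by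
    intro S
    rw [← dp_iff q e f S, ← dp_iff q e' f' S, h, h]
  rcases e with e | e <;> rcases f with f | f <;> rcases e' with e' | e' <;> rcases f' with f' | f'
  · -- all core
    simp only [dp] at hdp
    have hef1 : e ≠ f := fun h => hef (by rw [h])
    have hef1' : e' ≠ f' := fun h => hef' (by rw [h])
    have h1 := hdp e
    have h2 := hdp f
    have h3 := hdp e'
    have h4 := hdp f'
    simp only [decide_eq_decide] at h1 h2 h3 h4
    by_cases g1 : e = e'
    · by_cases g2 : f = f'
      · left; rw [g1, g2]; exact ⟨rfl, rfl⟩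
      · exfalso
        subst g1
        have : f' ≠ f := fun h => g2 h.symm
        simp_all
    · by_cases g2 : e = f'
      · subst g2
        by_cases g3 : f = e'
        · right; rw [g3]; exact ⟨rfl, rfl⟩
        · exfalso
          have : e' ≠ f := fun h => g3 h.symm
          have : e' ≠ e := fun h => g1 h.symm
          simp_all
      · exfalso
        have : e' ≠ e := fun h => g1 h.symm
        have : f' ≠ e := fun h => g2 h.symm
        have : f ≠ e := fun h => hef1 h.symm
        simp_all
  · exfalso
    obtain ⟨s, h1, h2, h3⟩ := exists_ne3 hF e f e'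
    have := hdp s
    simp [dp, h1.symm, h2.symm, h3.symm] at this
  · exfalso
    obtain ⟨s, h1, h2, h3⟩ := exists_ne3 hF e f f'
    have := hdp s
    simp [dp, h1.symm, h2.symm, h3.symm] at this
  · exfalso
    have hef1 : f ≠ e := fun h => hef (by rw [h])
    have := hdp e
    simp [dp, hef1] at this
  · exfalso
    obtain ⟨s, h1, h2, h3⟩ := exists_ne3 hF e e' f'
    have := hdp s
    simp [dp, h1.symm, h2.symm, h3.symm] at this
  · -- core, W, core, W
    left
    have hee : e = e' := by
      have := hdp e'
      by_contra hne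
      simp [dp, hne] at this
    subst hee
    refine ⟨rfl, ?_⟩
    have h1 := h (Sum.inr (some f))
    simp only [val_lr, val_rs] at h1
    congr 1
    by_contra hne
    have hne' : ¬ f' = f := fun h => hne h.symm
    simp only [hne', decide_true, decide_false] at h1
    cases hR : R (Sum.inr (trow q (some f))) e <;> simp [hR] at h1
  · -- core, W, W, core
    right
    have hee : e = f' := by
      have := hdp f'
      by_contra hne
      simp [dp, hne] at this
    subst hee
    refine ⟨rfl, ?_⟩
    have h1 := h (Sum.inr (some f))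
    simp only [val_lr, val_rs] at h1
    congr 1
    by_contra hne
    have hne' : ¬ e' = f := fun h => hne h.symm
    simp only [hne', decide_true, decide_false] at h1
    cases hR : R (Sum.inr (trow q (some f))) e <;> simp [hR] at h1
  · exfalso
    obtain ⟨s, h1, h2, h3⟩ := exists_ne3 hF e e e
    have := hdp s
    simp [dp, h1.symm] at this
  · exfalso
    obtain ⟨s, h1, h2, h3⟩ := exists_ne3 hF f e' f'
    have := hdp s
    simp [dp, h1.symm, h2.symm, h3.symm] at this
  · -- W, core, core, W
    right
    have hee : f = e' := by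
      have := hdp e'
      by_contra hne
      simp [dp, hne] at this
    subst hee
    refine ⟨?_, rfl⟩
    have h1 := h (Sum.inr (some e))
    simp only [val_lr, val_rs] at h1
    congr 1
    by_contra hne
    have hne' : ¬ f' = e := fun h => hne h.symm
    simp only [hne', decide_true, decide_false] at h1
    cases hR : R (Sum.inr (trow q (some e))) f <;> simp [hR] at h1
  · -- W, core, W, core
    left
    have hee : f = f' := by
      have := hdp f'
      by_contra hne
      simp [dp, hne] at this
    subst hee
    refine ⟨?_, rfl⟩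
    have h1 := h (Sum.inr (some e))
    simp only [val_lr, val_rs] at h1
    congr 1
    by_contra hne
    have hne' : ¬ e' = e := fun h => hne h.symm
    simp only [hne', decide_true, decide_false] at h1
    cases hR : R (Sum.inr (trow q (some e))) f <;> simp [hR] at h1
  · exfalso
    obtain ⟨s, h1, h2, h3⟩ := exists_ne3 hF f f f
    have := hdp s
    simp [dp, h1.symm] at this
  · exfalso
    have hef1 : f' ≠ e' := fun h => hef' (by rw [h])
    have := hdp e'
    simp [dp, hef1] at this
  · exfalso
    obtain ⟨s, h1, h2, h3⟩ := exists_ne3 hF e' e' e'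
    have := hdp s
    simp [dp, h1.symm] at this
  · exfalso
    obtain ⟨s, h1, h2, h3⟩ := exists_ne3 hF f' f' f'
    have := hdp s
    simp [dp, h1.symm] at this
  · -- all W
    have hef1 : e ≠ f := fun h => hef (by rw [h])
    have hef1' : e' ≠ f' := fun h => hef' (by rw [h])
    have hk : ∀ l : Fin d, (e = l ↔ f = l) ↔ (e' = l ↔ f' = l) := by
      intro l
      have := h (Sum.inr (some l))
      simpa only [val_rs, decide_eq_decide] using this
    have h1 := hk e
    have h2 := hk f
    have h3 := hk e'
    have h4 := hk f'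
    by_cases g1 : e = e'
    · by_cases g2 : f = f'
      · left; rw [g1, g2]; exact ⟨rfl, rfl⟩
      · exfalso
        subst g1
        have : f' ≠ f := fun h => g2 h.symm
        simp_all
    · by_cases g2 : e = f'
      · subst g2
        by_cases g3 : f = e'
        · right; rw [g3]; exact ⟨rfl, rfl⟩
        · exfalso
          have : e' ≠ f := fun h => g3 h.symm
          have : e' ≠ e := fun h => g1 h.symm
          simp_all
      · exfalso
        have : e' ≠ e := fun h => g1 h.symm
        have : f' ≠ e := fun h => g2 h.symm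
        have : f ≠ e := fun h => hef1 h.symm
        simp_all

/-- the index of a class -/
noncomputable def idx (κ : Cl F d) : ℕ :=
  match κ with
  | Sum.inr (some j) => j.val
  | Sum.inr none => d
  | Sum.inl x => d + 1 + (Fintype.equivFin ((F × F) × Bool) x).val

lemma idx_inj : Function.Injective (idx : Cl F d → ℕ) := by
  intro κ κ' h
  rcases κ with x | _ | j <;> rcases κ' with x' | _ | j' <;> simp only [idx] at h
  · have h2 : (Fintype.equivFin ((F × F) × Bool) x) = (Fintype.equivFin ((F × F) × Bool) x') :=
      Fin.ext (by omega)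
    rw [(Fintype.equivFin _).injective h2]
  · omega
  · have := j'.isLt
    omega
  · omega
  · rfl
  · have := j'.isLt
    omega
  · have := j.isLt
    omega
  · have := j.isLt
    omega
  · rw [Fin.ext h]

lemma pow_sum_inj (A B : Finset (Cl F d)) (h : ∑ κ ∈ A, 4 ^ idx κ = ∑ κ ∈ B, 4 ^ idx κ) :
    A = B := by
  have h1 : ∑ i ∈ A.image idx, 4 ^ i = ∑ i ∈ B.image idx, 4 ^ i := by
    rw [sum_image (fun x _ y _ h => idx_inj h), sum_image (fun x _ y _ h => idx_inj h)]
    exact h
  have h2 := Finset.geomSum_injective (n := 4) (by norm_num) h1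
  exact Finset.image_injective idx_inj h2

/-- multiplicities -/
noncomputable def mult (M : ℕ) (κ : Cl F d) : ℕ := M * 4 ^ idx κ

/-- vertices -/
abbrev Vx (F : Type) [Field F] [Fintype F] [DecidableEq F] (d M : ℕ) : Type :=
  ((Σ κ : Cl F d, Fin (mult M κ)) × Bool) ⊕ (Bool ⊕ Bool)

/-- incidence -/
def inc {M : ℕ} (e : Ed F d) (v : Vx F d M) : Bool :=
  match e, v with
  | e, Sum.inl (c, β) => decide (val q e c.1 = β)
  | Sum.inl S', Sum.inr (Sum.inl β) => decide (R (Sum.inr (q 3)) S' = β)
  | Sum.inr _, Sum.inr (Sum.inl _) => false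
  | _, Sum.inr (Sum.inr false) => true
  | Sum.inl _, Sum.inr (Sum.inr true) => false
  | Sum.inr _, Sum.inr (Sum.inr true) => true

variable {M : ℕ}

noncomputable instance : DecidableEq (Vx F d M) := Classical.decEq _

@[simp] lemma inc_c (e : Ed F d) (c : Σ κ : Cl F d, Fin (mult M κ)) (β : Bool) :
    inc q e (Sum.inl (c, β) : Vx F d M) = decide (val q e c.1 = β) := by
  cases e <;> rfl
@[simp] lemma inc_ly (S' : F × F) (β : Bool) :
    inc q (Sum.inl S' : Ed F d) (Sum.inr (Sum.inl β) : Vx F d M) =
      decide (R (Sum.inr (q 3)) S' = β) := rfl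
@[simp] lemma inc_ry (i : Fin d) (β : Bool) :
    inc q (Sum.inr i : Ed F d) (Sum.inr (Sum.inl β) : Vx F d M) = false := rfl
@[simp] lemma inc_z (e : Ed F d) :
    inc q e (Sum.inr (Sum.inr false) : Vx F d M) = true := by
  cases e <;> rfl
@[simp] lemma inc_lw (S' : F × F) :
    inc q (Sum.inl S' : Ed F d) (Sum.inr (Sum.inr true) : Vx F d M) = false := rfl
@[simp] lemma inc_rw (i : Fin d) :
    inc q (Sum.inr i : Ed F d) (Sum.inr (Sum.inr true) : Vx F d M) = true := rfl

/-- the edges -/
noncomputable def edge (e : Ed F d) : Finset (Vx F d M) := univ.filter (fun v => inc q e v = true)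

lemma mem_edge (e : Ed F d) (v : Vx F d M) : v ∈ edge q e ↔ inc q e v = true := by
  simp [edge]

/-- the small part of an intersection -/
def yz (e f : Ed F d) : ℕ :=
  match e, f with
  | Sum.inl S, Sum.inl S' => if R (Sum.inr (q 3)) S = R (Sum.inr (q 3)) S' then 2 else 1
  | Sum.inr _, Sum.inr _ => 2
  | _, _ => 1

lemma yz_bound (e f : Ed F d) : 1 ≤ yz q e f ∧ yz q e f ≤ 2 := by
  rcases e with e | e <;> rcases f with f | f <;> simp only [yz]
  · split_ifs <;> omega
  · omega
  · omega
  · omega

lemma card_inter_edge (e f : Ed F d) :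
    ((edge q e : Finset (Vx F d M)) ∩ edge q f).card =
      M * (∑ κ ∈ univ.filter (fun κ : Cl F d => val q e κ = val q f κ), 4 ^ idx κ) + yz q e f := by
  have h1 : (edge q e : Finset (Vx F d M)) ∩ edge q f =
      univ.filter (fun v => inc q e v = true ∧ inc q f v = true) := by
    ext v
    simp [mem_edge]
  rw [h1, card_filter, Fintype.sum_sum_type, Fintype.sum_sum_type, Fintype.sum_prod_type,
    Fintype.sum_sigma]
  congr 1
  · rw [mul_sum, sum_filter]
    apply sum_congr rfl
    intro κ _
    simp only [inc_c, Fintype.sum_bool, decide_eq_true_eq]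
    have h2 : ∀ a b : Bool, ((if a = true ∧ b = true then 1 else 0) +
        (if a = false ∧ b = false then 1 else 0) : ℕ) = if a = b then 1 else 0 := by
      decide
    simp only [h2]
    by_cases hk : val q e κ = val q f κ
    · simp [hk, mult]
      exact Fintype.card_fin _
    · simp [hk]
  · simp only [Fintype.sum_bool]
    rcases e with e | e <;> rcases f with f | f <;> simp [yz]
    cases R (Sum.inr (q 3)) e <;> cases R (Sum.inr (q 3)) f <;> simp

end Cons

end Pool.Agent.Lib.MP_9571c3_co
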