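import Mathlib
import Pool.Agent.Lib.MP_9571c3_co.Construct2

set_option autoImplicit false
set_option linter.unusedSectionVars false

namespace Pool.Agent.Lib.MP_9571c3_co

open Finset

namespace Cons

variable {F : Type} [Field F] [Fintype F] [DecidableEq F]
variable {d : ℕ} (q : Fin 4 → F) {M : ℕ}

lemma mult_pos (hM : 0 < M) (κ : Cl F d) : 0 < mult M κ := Nat.mul_pos hM (by positivity)

lemma le_mult (κ : Cl F d) : M ≤ mult M κ := Nat.le_mul_of_pos_right _ (by positivity)

lemma edge_inj (hM : 0 < M) : Function.Injective (edge q : Ed F d → Finset (Vx F d M)) := by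
  intro e f hef
  have hinc : ∀ v : Vx F d M, inc q e v = inc q f v := by
    intro v
    have h1 := mem_edge q e v
    rw [hef, mem_edge] at h1
    cases h2 : inc q e v <;> cases h3 : inc q f v <;> simp_all
  have hval : ∀ κ : Cl F d, val q f κ = val q e κ := by
    intro κ
    have := hinc (Sum.inl (⟨κ, ⟨0, mult_pos hM κ⟩⟩, val q e κ))
    simpa using this.symm
  have hw := hinc (Sum.inr (Sum.inr true))
  rcases e with e | e <;> rcases f with f | f
  · by_contra hne
    have hne' : ¬ f = e := fun h => hne (by rw [h])
    have h1 := hval (Sum.inl (e, true))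
    have h2 := hval (Sum.inl (e, false))
    simp only [val_ll, if_true, hne', if_false] at h1 h2
    rw [h1] at h2
    exact absurd h2 (by decide)
  · simp at hw
  · simp at hw
  · have h1 := hval (Sum.inr (some e))
    simp only [val_rs, decide_true, decide_eq_true_eq] at h1
    rw [h1]

/-- core edges -/
noncomputable def CC : Finset (Finset (Vx F d M)) := univ.image (fun S : F × F => edge q (Sum.inl S))

/-- flexible edges -/
noncomputable def FF : Finset (Finset (Vx F d M)) :=
  (univ.filter (fun j : Fin d => j.val ≠ 0 ∧ j.val + 1 ≠ d)).image (fun j => edge q (Sum.inr j))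

/-- edge indexed by `i` at `w` -/
noncomputable def WW (i : Fin d) : Finset (Vx F d M) := edge q (Sum.inr i)

lemma H_eq (hd : 3 ≤ d) :
    (CC q : Finset (Finset (Vx F d M))) ∪ insert (WW q ⟨0, by omega⟩)
      (insert (WW q ⟨d - 1, by omega⟩) (FF q)) = univ.image (edge q) := by
  ext x
  simp only [CC, FF, WW, mem_union, mem_image, mem_univ, true_and, mem_insert, mem_filter]
  constructor
  · rintro (⟨S, rfl⟩ | rfl | rfl | ⟨j, _, rfl⟩)
    · exact ⟨_, rfl⟩
    · exact ⟨_, rfl⟩
    · exact ⟨_, rfl⟩
    · exact ⟨_, rfl⟩
  · rintro ⟨e | e, rfl⟩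
    · exact Or.inl ⟨e, rfl⟩
    · right
      by_cases h0 : e.val = 0
      · left
        have : e = ⟨0, by omega⟩ := Fin.ext h0
        rw [this]
      · by_cases h1 : e.val + 1 = d
        · right; left
          have : e = ⟨d - 1, by omega⟩ := Fin.ext (by simp; omega)
          rw [this]
        · right; right
          exact ⟨e, ⟨h0, h1⟩, rfl⟩

lemma card_filter_H (hM : 0 < M) (P : Finset (Vx F d M) → Prop) [DecidablePred P] :
    ((univ.image (edge q : Ed F d → Finset (Vx F d M))).filter P).card =
      (univ.filter (fun e : Ed F d => P (edge q e))).card := by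
  rw [filter_image, card_image_of_injective _ (edge_inj q hM)]

lemma core_inj (hM : 0 < M) :
    Function.Injective (fun S : F × F => (edge q (Sum.inl S : Ed F d) : Finset (Vx F d M))) := by
  intro S S' h
  exact Sum.inl_injective (edge_inj q hM h)

lemma card_filter_C (hM : 0 < M) (P : Finset (Vx F d M) → Prop) [DecidablePred P] :
    ((CC q : Finset (Finset (Vx F d M))).filter P).card =
      (univ.filter (fun S : F × F => P (edge q (Sum.inl S)))).card := by
  rw [CC, filter_image, card_image_of_injective _ (core_inj q hM)]

/-- row of a class -/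
def crow (κ : Cl F d) : (F × F) ⊕ F :=
  match κ with
  | Sum.inl (S, _) => Sum.inl S
  | Sum.inr t => Sum.inr (trow q t)

/-- row of a vertex -/
def rowv (v : Vx F d M) : (F × F) ⊕ F :=
  match v with
  | Sum.inl (c, _) => crow q c.1
  | Sum.inr _ => Sum.inr (q 3)

/-- sign of a vertex -/
def signv (v : Vx F d M) : Bool :=
  match v with
  | Sum.inl (_, β) => β
  | Sum.inr (Sum.inl β) => β
  | Sum.inr (Sum.inr β) => β

/-- exceptional column of a vertex -/
def excv (v : Vx F d M) : F × F :=
  match v with
  | Sum.inl (⟨Sum.inl (S, _), _⟩, _) => S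
  | _ => (0, 0)

/-- ordinary vertices -/
def Ord (v : Vx F d M) : Prop := v ≠ Sum.inr (Sum.inr false) ∧ v ≠ Sum.inr (Sum.inr true)

lemma inc_row (v : Vx F d M) (hv : Ord v) (S : F × F) (hS : S ≠ excv v) :
    inc q (Sum.inl S) v = true ↔ R (rowv q v) S = signv v := by
  rcases v with ⟨⟨κ, j⟩, β⟩ | β | β
  · rcases κ with ⟨S', γ⟩ | t
    · have hS' : ¬ S = S' := hS
      simp [rowv, signv, crow, hS']
    · simp [rowv, signv, crow]
  · simp [rowv, signv]
  · exfalso
    cases β
    · exact hv.1 rfl
    · exact hv.2 rfl

lemma core_deg (hF : 3 ≤ Fintype.card F) (v : Vx F d M) (hv : v ≠ Sum.inr (Sum.inr true)) :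
    Fintype.card F ≤ (univ.filter (fun S : F × F => inc q (Sum.inl S) v = true)).card + 2 := by
  by_cases hz : v = Sum.inr (Sum.inr false)
  · subst hz
    simp only [inc_z, filter_true, card_univ, Fintype.card_prod]
    have h6 : 3 * Fintype.card F ≤ Fintype.card F * Fintype.card F :=
      Nat.mul_le_mul_right _ hF
    omega
  · refine (row_card (rowv q v) (signv v) hF).trans (card_remove _ _ (excv v) (excv v) ?_)
    intro s hs h1 _
    simp only [mem_filter, mem_univ, true_and] at hs ⊢
    exact (inc_row q v ⟨hz, hv⟩ s h1).mpr hs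

lemma core_codeg (hF : 3 ≤ Fintype.card F) (v : Vx F d M) (hv : v ≠ Sum.inr (Sum.inr false)) :
    Fintype.card F ≤ (univ.filter (fun S : F × F => ¬ inc q (Sum.inl S) v = true)).card + 2 := by
  by_cases hz : v = Sum.inr (Sum.inr true)
  · subst hz
    simp only [inc_lw, Bool.false_eq_true, not_false_eq_true, filter_true, card_univ,
      Fintype.card_prod]
    have h6 : 3 * Fintype.card F ≤ Fintype.card F * Fintype.card F :=
      Nat.mul_le_mul_right _ hF
    omega
  · refine (row_card (rowv q v) (!signv v) hF).trans (card_remove _ _ (excv v) (excv v) ?_)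
    intro s hs h1 _
    simp only [mem_filter, mem_univ, true_and] at hs ⊢
    rw [inc_row q v ⟨hv, hz⟩ s h1, hs]
    cases signv v <;> simp

/-- number of core edges separating two ordinary vertices -/
lemma core_sep (hF : 3 ≤ Fintype.card F) (a b : Vx F d M) (ha : Ord a) (hb : Ord b)
    (hab : rowv q a ≠ rowv q b ∨ signv a ≠ signv b) :
    Fintype.card F ≤ (univ.filter (fun S : F × F =>
      ¬ (inc q (Sum.inl S) a = true ↔ inc q (Sum.inl S) b = true))).card + 3 := by
  have h1 : (univ.filter (fun s : F × F =>
      ¬ ((R (rowv q a) s = signv a) ↔ (R (rowv q b) s = signv b)))).card ≤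
      (univ.filter (fun S : F × F =>
      ¬ (inc q (Sum.inl S) a = true ↔ inc q (Sum.inl S) b = true))).card + 2 := by
    apply card_remove _ _ (excv a) (excv b)
    intro s hs h1 h2
    simp only [mem_filter, mem_univ, true_and] at hs ⊢
    rw [inc_row q a ha s h1, inc_row q b hb s h2]
    exact hs
  by_cases hr : rowv q a = rowv q b
  · have hs : signv a ≠ signv b := by
      rcases hab with h | h
      · exact absurd hr h
      · exact h
    have h2 : univ.filter (fun s : F × F =>
      ¬ ((R (rowv q a) s = signv a) ↔ (R (rowv q b) s = signv b))) = univ := by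
      apply filter_true_of_mem
      intro s _ h
      rw [hr] at h
      cases h3 : R (rowv q b) s <;> cases h4 : signv a <;> cases h5 : signv b <;> simp_all
    rw [h2, card_univ, Fintype.card_prod] at h1
    have h6 : 3 * Fintype.card F ≤ Fintype.card F * Fintype.card F :=
      Nat.mul_le_mul_right _ hF
    omega
  · have h2 := row_sep (rowv q a) (rowv q b) (signv a) (signv b) hr hF
    omega

lemma trow_q1 (hq : Function.Injective q) (hd : 3 ≤ d) (t : Option (Fin d)) :
    trow q t = q 1 ↔ t = some ⟨0, by omega⟩ := by
  have h01 : q 0 ≠ q 1 := fun h => absurd (hq h) (by decide)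
  have h21 : q 2 ≠ q 1 := fun h => absurd (hq h) (by decide)
  rcases t with _ | j
  · simp [trow, h01]
  · simp only [trow, Option.some.injEq, Fin.ext_iff]
    by_cases h0 : j.val = 0
    · simp [h0]
    · by_cases h1 : j.val + 1 = d
      · simp [h0, h1, h21]
      · simp [h0, h1, h01]

lemma trow_q2 (hq : Function.Injective q) (hd : 3 ≤ d) (t : Option (Fin d)) :
    trow q t = q 2 ↔ t = some ⟨d - 1, by omega⟩ := by
  have h02 : q 0 ≠ q 2 := fun h => absurd (hq h) (by decide)
  have h12 : q 1 ≠ q 2 := fun h => absurd (hq h) (by decide)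
  rcases t with _ | j
  · simp [trow, h02]
  · simp only [trow, Option.some.injEq, Fin.ext_iff]
    by_cases h0 : j.val = 0
    · simp only [h0, if_true, h12, false_iff]
      omega
    · by_cases h1 : j.val + 1 = d
      · simp only [h0, h1, if_true, if_false, true_iff]
        omega
      · simp only [h0, h1, if_false, h02, false_iff]
        omega

lemma trow_q3 (hq : Function.Injective q) (t : Option (Fin d)) : trow q t ≠ q 3 := by
  have h03 : q 0 ≠ q 3 := fun h => absurd (hq h) (by decide)
  have h13 : q 1 ≠ q 3 := fun h => absurd (hq h) (by decide)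
  have h23 : q 2 ≠ q 3 := fun h => absurd (hq h) (by decide)
  rcases t with _ | j
  · simp [trow, h03]
  · simp only [trow]
    split_ifs <;> assumption

/-- Separation of two vertices separated by an invariant edge. -/
lemma sep_aux (hq : Function.Injective q) (hd : 3 ≤ d) (hF : d + 5 ≤ Fintype.card F)
    (e : Ed F d) (he : (∃ S, e = Sum.inl S) ∨ e = Sum.inr ⟨0, by omega⟩ ∨
      e = Sum.inr ⟨d - 1, by omega⟩)
    (a b : Vx F d M) (ha : inc q e a = true) (hb : ¬ inc q e b = true) :
    d + 1 ≤ (univ.filter (fun f : Ed F d => ¬ (inc q f a = true ↔ inc q f b = true))).card := by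
  have hF3 : 3 ≤ Fintype.card F := by omega
  -- from core edges
  have hcore : d + 1 ≤ (univ.filter (fun S : F × F =>
      ¬ (inc q (Sum.inl S) a = true ↔ inc q (Sum.inl S) b = true))).card →
      d + 1 ≤ (univ.filter (fun f : Ed F d => ¬ (inc q f a = true ↔ inc q f b = true))).card := by
    intro h
    refine h.trans ?_
    rw [← card_image_of_injective _ (Sum.inl_injective : Function.Injective
      (Sum.inl : F × F → Ed F d))]
    apply card_le_card
    intro x hx
    obtain ⟨S, hS, rfl⟩ := mem_image.mp hx
    simpa using hS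
  by_cases hbz : b = Sum.inr (Sum.inr false)
  · exfalso
    subst hbz
    exact hb (inc_z q e)
  by_cases haz : a = Sum.inr (Sum.inr false)
  · subst haz
    apply hcore
    have h1 := core_codeg q hF3 b hbz
    simp only [inc_z, true_iff]
    omega
  by_cases haw : a = Sum.inr (Sum.inr true)
  · subst haw
    apply hcore
    have hbw : b ≠ Sum.inr (Sum.inr true) := by
      rintro rfl
      exact hb ha
    have h1 := core_deg q hF3 b hbw
    simp only [inc_lw, Bool.false_eq_true, false_iff, not_not]
    omega
  by_cases hbw : b = Sum.inr (Sum.inr true)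
  · subst hbw
    apply hcore
    have h1 := core_deg q hF3 a haw
    simp only [inc_lw, Bool.false_eq_true, iff_false, not_not]
    omega
  by_cases hrs : rowv q a ≠ rowv q b ∨ signv a ≠ signv b
  · apply hcore
    have h1 := core_sep q hF3 a b ⟨haz, haw⟩ ⟨hbz, hbw⟩ hrs
    omega
  push Not at hrs
  obtain ⟨hr, hs⟩ := hrs
  rcases a with ⟨⟨κ, j⟩, β⟩ | β | β <;> rcases b with ⟨⟨κ', j'⟩, β'⟩ | β' | β'
  · simp only [signv] at hs
    subst hs
    rcases κ with ⟨S, γ⟩ | t <;> rcases κ' with ⟨S', γ'⟩ | t'
    · simp only [rowv, crow, Sum.inl.injEq] at hr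
      subst hr
      by_cases hγ : γ = γ'
      · exfalso
        subst hγ
        apply hb
        rw [inc_c] at ha ⊢
        exact ha
      · have h1 : insert (Sum.inl S) (univ.image (Sum.inr : Fin d → Ed F d)) ⊆
            univ.filter (fun f : Ed F d => ¬ (
              inc q f (Sum.inl (⟨Sum.inl (S, γ), j⟩, β) : Vx F d M) = true ↔
              inc q f (Sum.inl (⟨Sum.inl (S, γ'), j'⟩, β) : Vx F d M) = true)) := by
          intro x hx
          rw [mem_insert, mem_image] at hx
          simp only [mem_filter, mem_univ, true_and]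
          rcases hx with rfl | ⟨i, _, rfl⟩
          · simp only [inc_c, val_ll, if_true, decide_eq_true_eq]
            cases γ <;> cases γ' <;> cases β <;> simp_all
          · simp only [inc_c, val_rl, decide_eq_true_eq]
            cases γ <;> cases γ' <;> cases β <;> simp_all
        refine le_trans (le_of_eq ?_) (card_le_card h1)
        rw [card_insert_of_notMem (by simp), card_image_of_injective _ Sum.inr_injective,
          card_univ, Fintype.card_fin]
    · simp [rowv, crow] at hr
    · simp [rowv, crow] at hr
    · exfalso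
      simp only [rowv, crow, Sum.inr.injEq] at hr
      have hval : val q e (Sum.inr t) = val q e (Sum.inr t') := by
        rcases he with ⟨S, rfl⟩ | rfl | rfl
        · simp only [val_lr]
          rw [hr]
        · have h1 := trow_q1 q hq hd t
          have h2 := trow_q1 q hq hd t'
          rw [← hr, h1] at h2
          rcases t with _ | t <;> rcases t' with _ | t'
          · rfl
          · simp only [val_rn, val_rs]
            have h3 : ¬ (⟨0, by omega⟩ : Fin d) = t' := by
              intro h
              rw [h] at h2
              simp at h2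
            rw [decide_eq_false h3]
          · simp only [val_rn, val_rs]
            have h3 : ¬ (⟨0, by omega⟩ : Fin d) = t := by
              intro h
              rw [h] at h2
              simp at h2
            rw [decide_eq_false h3]
          · simp only [val_rs]
            have h3 : (⟨0, by omega⟩ : Fin d) = t ↔ (⟨0, by omega⟩ : Fin d) = t' := by
              rw [eq_comm, eq_comm (b := t')]
              simpa using h2
            rw [decide_eq_decide.mpr h3]
        · have h1 := trow_q2 q hq hd t
          have h2 := trow_q2 q hq hd t'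
          rw [← hr, h1] at h2
          rcases t with _ | t <;> rcases t' with _ | t'
          · rfl
          · simp only [val_rn, val_rs]
            have h3 : ¬ (⟨d - 1, by omega⟩ : Fin d) = t' := by
              intro h
              rw [h] at h2
              simp at h2
            rw [decide_eq_false h3]
          · simp only [val_rn, val_rs]
            have h3 : ¬ (⟨d - 1, by omega⟩ : Fin d) = t := by
              intro h
              rw [h] at h2
              simp at h2
            rw [decide_eq_false h3]
          · simp only [val_rs]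
            have h3 : (⟨d - 1, by omega⟩ : Fin d) = t ↔ (⟨d - 1, by omega⟩ : Fin d) = t' := by
              rw [eq_comm, eq_comm (b := t')]
              simpa using h2
            rw [decide_eq_decide.mpr h3]
      apply hb
      rw [inc_c, decide_eq_true_eq] at ha ⊢
      exact hval.symm.trans ha
  · exfalso
    rcases κ with ⟨S, γ⟩ | t
    · simp [rowv, crow] at hr
    · simp only [rowv, crow, Sum.inr.injEq] at hr
      exact trow_q3 q hq t hr
  · exfalso
    cases β'
    · exact hbz rfl
    · exact hbw rfl
  · exfalso
    rcases κ' with ⟨S, γ⟩ | t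
    · simp [rowv, crow] at hr
    · simp only [rowv, crow, Sum.inr.injEq] at hr
      exact trow_q3 q hq t hr.symm
  · exfalso
    simp only [signv] at hs
    subst hs
    exact hb ha
  · exfalso
    cases β'
    · exact hbz rfl
    · exact hbw rfl
  · exfalso
    cases β
    · exact haz rfl
    · exact haw rfl
  · exfalso
    cases β
    · exact haz rfl
    · exact haw rfl
  · exfalso
    cases β
    · exact haz rfl
    · exact haw rfl

/-- intersections of two edges at `w` -/
lemma card_inter_WW (i j : Fin d) (hij : i ≠ j) :
    ((WW q i : Finset (Vx F d M)) ∩ WW q j).card + M * 4 ^ i.val + M * 4 ^ j.val =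
      M * (∑ κ : Cl F d, 4 ^ idx κ) + 2 := by
  rw [WW, WW, card_inter_edge]
  have h1 : univ.filter (fun κ : Cl F d => val q (Sum.inr i) κ = val q (Sum.inr j) κ) =
      (univ.erase (Sum.inr (some i))).erase (Sum.inr (some j)) := by
    ext κ
    simp only [mem_filter, mem_univ, true_and, mem_erase, and_true]
    rcases κ with ⟨S, γ⟩ | _ | l
    · simp
    · simp
    · simp only [val_rs, decide_eq_decide, ne_eq, Sum.inr.injEq, Option.some.injEq]
      constructor
      · intro h
        constructor
        · rintro rfl
          exact hij (h.mpr rfl)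
        · rintro rfl
          exact hij (h.mp rfl).symm
      · rintro ⟨h1, h2⟩
        constructor
        · intro h; exact absurd h.symm h2
        · intro h; exact absurd h.symm h1
  rw [h1]
  have h2 : ∑ κ ∈ (univ : Finset (Cl F d)), 4 ^ idx κ =
      4 ^ i.val + (4 ^ j.val + ∑ κ ∈ ((univ : Finset (Cl F d)).erase (Sum.inr (some i))).erase
        (Sum.inr (some j)), 4 ^ idx κ) := by
    rw [← Finset.add_sum_erase univ _ (mem_univ (Sum.inr (some i) : Cl F d))]
    congr 1
    rw [← Finset.add_sum_erase _ _ (show (Sum.inr (some j) : Cl F d) ∈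
      (univ : Finset (Cl F d)).erase (Sum.inr (some i)) from by
        rw [mem_erase]
        refine ⟨?_, mem_univ _⟩
        simpa using hij.symm)]
    rfl
  rw [h2]
  simp only [yz]
  ring

lemma card_edge (e : Ed F d) :
    (edge q e : Finset (Vx F d M)).card = M * (∑ κ : Cl F d, 4 ^ idx κ) + 2 := by
  have h := card_inter_edge q (M := M) e e
  rw [inter_self] at h
  rw [h]
  simp only [filter_true]
  congr 1
  rcases e with e | e <;> simp [yz]

/-- The explicit design. -/
noncomputable def design (hq : Function.Injective q) (hd : 3 ≤ d) (hF : d + 5 ≤ Fintype.card F)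
    (hM : M = 2 * Fintype.card (F × F) + 2 * d + 10) :
    Design (Vx F d M) d (M * (∑ κ : Cl F d, 4 ^ idx κ) + 2) (Fintype.card (F × F)) M where
  C := CC q
  Fl := FF q
  L1 := WW q ⟨0, by omega⟩
  L2 := WW q ⟨d - 1, by omega⟩
  w := Sum.inr (Sum.inr true)
  z := Sum.inr (Sum.inr false)
  hd := hd
  hN := by
    rw [Fintype.card_prod]
    have h6 : 3 * Fintype.card F ≤ Fintype.card F * Fintype.card F :=
      Nat.mul_le_mul_right _ (by omega)
    omega
  hρ := hM.ge
  cardC := by
    rw [CC, card_image_of_injective _ (core_inj q (by omega)), card_univ]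
  cardFl := by
    rw [FF, card_image_of_injective _ (fun i j h => Sum.inr_injective (edge_inj q (by omega) h))]
    have : (univ.filter (fun j : Fin d => j.val ≠ 0 ∧ j.val + 1 ≠ d)) =
        (univ.erase (⟨0, by omega⟩ : Fin d)).erase ⟨d - 1, by omega⟩ := by
      ext j
      simp only [mem_filter, mem_univ, true_and, mem_erase, and_true, ne_eq, Fin.ext_iff]
      omega
    rw [this, card_erase_of_mem, card_erase_of_mem (mem_univ _), card_univ, Fintype.card_fin]
    · omega
    · simp only [mem_erase, mem_univ, and_true, ne_eq, Fin.ext_iff]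
      omega
  L12 := by
    intro h
    have := Sum.inr_injective (edge_inj q (by omega) h)
    simp only [Fin.ext_iff] at this
    omega
  L1Fl := by
    intro h
    rw [FF, mem_image] at h
    obtain ⟨j, hj, h⟩ := h
    have := Sum.inr_injective (edge_inj q (by omega) h)
    rw [this] at hj
    simp at hj
  L2Fl := by
    intro h
    rw [FF, mem_image] at h
    obtain ⟨j, hj, h⟩ := h
    have := Sum.inr_injective (edge_inj q (by omega) h)
    rw [this] at hj
    simp only [mem_filter, mem_univ, true_and] at hj
    omega
  wC := by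
    intro e he
    rw [CC, mem_image] at he
    obtain ⟨S, _, rfl⟩ := he
    rw [mem_edge]
    simp
  wL1 := by rw [WW, mem_edge]; simp
  wL2 := by rw [WW, mem_edge]; simp
  wFl := by
    intro e he
    rw [FF, mem_image] at he
    obtain ⟨j, _, rfl⟩ := he
    rw [mem_edge]
    simp
  zw := by simp
  zH := by
    intro e he
    rw [H_eq q hd, mem_image] at he
    obtain ⟨j, _, rfl⟩ := he
    rw [mem_edge]
    simp
  cardE := by
    intro e he
    rw [H_eq q hd, mem_image] at he
    obtain ⟨j, _, rfl⟩ := he
    exact card_edge q j
  role := by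
    intro e he f hf e' he' f' hf' hef hef' h
    rw [H_eq q hd, mem_image] at he hf he' hf'
    obtain ⟨e, _, rfl⟩ := he
    obtain ⟨f, _, rfl⟩ := hf
    obtain ⟨e', _, rfl⟩ := he'
    obtain ⟨f', _, rfl⟩ := hf'
    rw [card_inter_edge, card_inter_edge] at h
    have h1 := yz_bound q e f
    have h2 := yz_bound q e' f'
    set A := ∑ κ ∈ univ.filter (fun κ : Cl F d => val q e κ = val q f κ), 4 ^ idx κ with hA
    set B := ∑ κ ∈ univ.filter (fun κ : Cl F d => val q e' κ = val q f' κ), 4 ^ idx κ with hB
    have hAB : A = B := by
      rcases lt_trichotomy A B with hlt | heq | hgt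
      · exfalso
        have h3 : M * (A + 1) ≤ M * B := Nat.mul_le_mul_left _ hlt
        rw [mul_add, mul_one] at h3
        omega
      · exact heq
      · exfalso
        have h3 : M * (B + 1) ≤ M * A := Nat.mul_le_mul_left _ hgt
        rw [mul_add, mul_one] at h3
        omega
    have h3 := pow_sum_inj _ _ hAB
    have h4 : ∀ κ : Cl F d, (val q e κ = val q f κ) ↔ (val q e' κ = val q f' κ) := by
      intro κ
      have := Finset.ext_iff.mp h3 κ
      simpa using this
    rcases sidon q (by omega) e f e' f' (fun h => hef (by rw [h])) (fun h => hef' (by rw [h])) h4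
      with ⟨h5, h6⟩ | ⟨h5, h6⟩
    · left; rw [h5, h6]; exact ⟨rfl, rfl⟩
    · right; rw [h5, h6]; exact ⟨rfl, rfl⟩
  deg := by
    intro a ha
    rw [card_filter_C q (by omega)]
    simp only [mem_edge]
    have := core_deg q (by omega) a ha
    omega
  codeg := by
    intro b hb
    rw [card_filter_C q (by omega)]
    simp only [mem_edge]
    have := core_codeg q (by omega) b hb
    omega
  sep := by
    intro e he a ha b hb
    rw [H_eq q hd, card_filter_H q (by omega)]
    simp only [mem_edge]
    rcases he with he | rfl | rfl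
    · rw [CC, mem_image] at he
      obtain ⟨S, _, rfl⟩ := he
      rw [mem_edge] at ha hb
      exact sep_aux q hq hd hF (Sum.inl S) (Or.inl ⟨S, rfl⟩) a b ha hb
    · rw [WW, mem_edge] at ha hb
      exact sep_aux q hq hd hF _ (Or.inr (Or.inl rfl)) a b ha hb
    · rw [WW, mem_edge] at ha hb
      exact sep_aux q hq hd hF _ (Or.inr (Or.inr rfl)) a b ha hb
  swapC := by
    intro e he
    rw [CC, mem_image] at he
    obtain ⟨S, _, rfl⟩ := he
    refine ⟨Sum.inl (⟨Sum.inl (S, true), ⟨0, mult_pos (by omega) _⟩⟩, true), ?_,
      univ.image (fun j : Fin (mult M (Sum.inl (S, false) : Cl F d)) =>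
        (Sum.inl (⟨Sum.inl (S, false), j⟩, true) : Vx F d M)), ?_, ?_⟩
    · rw [mem_edge]; simp
    · rw [card_image_of_injective]
      · rw [card_univ, Fintype.card_fin]
        exact le_mult _
      · intro j j' h
        simpa using h
    · intro a ha
      rw [mem_image] at ha
      obtain ⟨j, _, rfl⟩ := ha
      refine ⟨by simp, ?_, ?_⟩
      · rw [mem_edge]; simp
      · intro f hf hfe
        rw [CC, mem_image] at hf
        obtain ⟨S', _, rfl⟩ := hf
        have hSS : ¬ S' = S := fun h => hfe (by rw [h])
        rw [mem_edge, mem_edge]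
        simp [hSS]
  swapF := by
    intro e he
    rw [FF, mem_image] at he
    obtain ⟨j, hj, rfl⟩ := he
    simp only [mem_filter, mem_univ, true_and] at hj
    refine ⟨Sum.inl (⟨Sum.inr (some j), ⟨0, mult_pos (by omega) _⟩⟩, true), ?_, by simp,
      univ.image (fun i : Fin (mult M (Sum.inr none : Cl F d)) =>
        (Sum.inl (⟨Sum.inr none, i⟩, true) : Vx F d M)), ?_, ?_⟩
    · rw [mem_edge]; simp
    · rw [card_image_of_injective]
      · rw [card_univ, Fintype.card_fin]
        exact le_mult _
      · intro j j' h
        simpa using h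
    · intro a ha
      rw [mem_image] at ha
      obtain ⟨i, _, rfl⟩ := ha
      refine ⟨?_, ?_⟩
      · rw [mem_edge]; simp
      · intro f hf hfe
        rw [H_eq q hd, mem_image] at hf
        obtain ⟨f, _, rfl⟩ := hf
        rw [mem_edge, mem_edge]
        rcases f with S | l
        · simp [trow, hj.1, hj.2]
        · have hlj : ¬ l = j := fun h => hfe (by rw [h])
          simp [hlj]
  close := by
    intro f hf f' hf'
    rw [FF, mem_image] at hf hf'
    obtain ⟨j, hj, rfl⟩ := hf
    obtain ⟨j', hj', rfl⟩ := hf'
    simp only [mem_filter, mem_univ, true_and] at hj hj'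
    have h1 := card_inter_WW q (M := M) j ⟨0, by omega⟩ (by
      intro h; exact hj.1 (by rw [h]))
    have h2 := card_inter_WW q (M := M) j' ⟨0, by omega⟩ (by
      intro h; exact hj'.1 (by rw [h]))
    have h3 := card_inter_WW q (M := M) (⟨0, by omega⟩ : Fin d) ⟨d - 1, by omega⟩ (by
      intro h
      simp only [Fin.ext_iff] at h
      omega)
    simp only [WW, pow_zero, mul_one] at h1 h2 h3 ⊢
    have h4 : M * 4 ^ j.val ≤ M * 4 ^ (d - 2) :=
      Nat.mul_le_mul_left _ (Nat.pow_le_pow_right (by norm_num) (by have := j.isLt; omega))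
    have h5 : M * 4 ^ j'.val ≤ M * 4 ^ (d - 2) :=
      Nat.mul_le_mul_left _ (Nat.pow_le_pow_right (by norm_num) (by have := j'.isLt; omega))
    have h6 : M * 4 ^ (d - 1) = 4 * (M * 4 ^ (d - 2)) := by
      have : d - 1 = (d - 2) + 1 := by omega
      rw [this, pow_succ]; ring
    have h7 : M * 4 ≤ M * 4 ^ (d - 2) := by
      apply Nat.mul_le_mul_left
      calc 4 = 4 ^ 1 := by norm_num
        _ ≤ 4 ^ (d - 2) := Nat.pow_le_pow_right (by norm_num) (by omega)
    omega

end Cons

end Pool.Agent.Lib.MP_9571c3_co
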