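import Mathlib

set_option autoImplicit false

/-!
# Positional games on the infinite board: from a step-wise invariant to a non-losing play
-/

namespace Pool.Agent.Lib.MP_9571c3_co

open Finset

/-- the play defined by a total strategy -/
lemma exists_play (σ : List (Finset ℕ) → Finset ℕ) :
    ∃ m : ℕ → Finset ℕ, ∀ i : ℕ, m i = σ (List.ofFn (fun j : Fin i => m j)) := by
  let hist : ℕ → List (Finset ℕ) := fun i =>
    Nat.rec [] (fun _ h => h ++ [σ h]) i
  have h0 : hist 0 = [] := rfl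
  have hs : ∀ i, hist (i + 1) = hist i ++ [σ (hist i)] := fun i => rfl
  refine ⟨fun i => σ (hist i), ?_⟩
  have key : ∀ i, hist i = List.ofFn (fun j : Fin i => σ (hist j)) := by
    intro i
    induction i with
    | zero => simp [h0]
    | succ i ih =>
      rw [hs, List.ofFn_succ', List.concat_eq_append]
      congr 1
  intro i
  rw [← key i]

/-- the moves among the first `i` whose index satisfies `p` -/
def sel (p : ℕ → Prop) [DecidablePred p] (m : ℕ → Finset ℕ) (i : ℕ) : Finset (Finset ℕ) :=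
  ((range i).filter p).image m

lemma mem_sel {p : ℕ → Prop} [DecidablePred p] {m : ℕ → Finset ℕ} {i : ℕ} {x : Finset ℕ} :
    x ∈ sel p m i ↔ ∃ j < i, p j ∧ m j = x := by
  simp [sel, and_assoc]

lemma sel_succ_pos {p : ℕ → Prop} [DecidablePred p] {m : ℕ → Finset ℕ} {i : ℕ} (h : p i) :
    sel p m (i + 1) = insert (m i) (sel p m i) := by
  ext x
  rw [mem_insert, mem_sel, mem_sel]
  constructor
  · rintro ⟨j, hj, hpj, rfl⟩
    rcases Nat.lt_succ_iff_lt_or_eq.mp hj with h1 | h1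
    · exact Or.inr ⟨j, h1, hpj, rfl⟩
    · left; rw [h1]
  · rintro (rfl | ⟨j, hj, hpj, rfl⟩)
    · exact ⟨i, Nat.lt_succ_self i, h, rfl⟩
    · exact ⟨j, Nat.lt_succ_of_lt hj, hpj, rfl⟩

lemma sel_succ_neg {p : ℕ → Prop} [DecidablePred p] {m : ℕ → Finset ℕ} {i : ℕ} (h : ¬ p i) :
    sel p m (i + 1) = sel p m i := by
  ext x
  rw [mem_sel, mem_sel]
  constructor
  · rintro ⟨j, hj, hpj, rfl⟩
    rcases Nat.lt_succ_iff_lt_or_eq.mp hj with h1 | h1
    · exact ⟨j, h1, hpj, rfl⟩
    · exact absurd (h1 ▸ hpj) h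
  · rintro ⟨j, hj, hpj, rfl⟩
    exact ⟨j, Nat.lt_succ_of_lt hj, hpj, rfl⟩

/-- there is always a legal move -/
lemma exists_legal {k : ℕ} (hk : 0 < k) (X : Finset (Finset ℕ)) :
    ∃ y : Finset ℕ, y.card = k ∧ y ∉ X := by
  obtain ⟨x, hx⟩ := Infinite.exists_notMem_finset (X.biUnion id)
  rw [mem_biUnion] at hx
  push Not at hx
  obtain ⟨y, hxy, hy⟩ := Infinite.exists_superset_card_eq {x} k (by rw [card_singleton]; exact hk)
  refine ⟨y, hy, fun h => hx y h ?_⟩
  exact hxy (mem_singleton_self x)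

/-- From an invariant preserved by suitable replies to a play in which the drawer
(whose turns are the indices not satisfying `p`) does not lose. -/
theorem exists_drawing_play {k : ℕ} (hk : 0 < k) (HC : Finset (Finset ℕ) → Prop)
    (hmono : ∀ X Y : Finset (Finset ℕ), X ⊆ Y → HC X → HC Y)
    (Inv : Finset (Finset ℕ) → Finset (Finset ℕ) → Prop)
    (hstep : ∀ G S : Finset (Finset ℕ), Inv G S → ∀ e : Finset ℕ, e ∉ G → e ∉ S →
      ¬ HC (insert e G) ∧ ∃ y : Finset ℕ, y.card = k ∧ y ∉ insert e G ∧ y ∉ S ∧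
        (HC (insert y S) ∨ Inv (insert e G) (insert y S)))
    (p : ℕ → Prop) [DecidablePred p] (hp : ∀ i, p (i + 1) ↔ ¬ p i) (i0 : ℕ) (hi0 : p i0)
    (hbase : ∀ m : ℕ → Finset ℕ, Inv (sel p m i0) (sel (fun i => ¬ p i) m i0))
    (s : List (Finset ℕ) → Finset ℕ) :
    ∃ m : ℕ → Finset ℕ,
      (∀ i : ℕ, p i → m i = s (List.ofFn (fun j : Fin i => m j))) ∧
      (∀ i : ℕ, ¬ p i → (m i).card = k ∧ ∀ j < i, m j ≠ m i) ∧
      ∀ N : ℕ, i0 ≤ N → p N → (∀ i ≤ N, p i → (m i).card = k ∧ ∀ j < i, m j ≠ m i) →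
        HC (sel p m (N + 1)) → HC (sel (fun i => ¬ p i) m N) := by
  classical
  -- the reply property
  let lG : List (Finset ℕ) → Finset (Finset ℕ) := fun h =>
    ((range h.length).filter p).image (fun j => h.getD j ∅)
  let lS : List (Finset ℕ) → Finset (Finset ℕ) := fun h =>
    ((range h.length).filter (fun i => ¬ p i)).image (fun j => h.getD j ∅)
  have hex : ∀ h : List (Finset ℕ), ∃ y : Finset ℕ, y.card = k ∧ y ∉ lG h ∪ lS h ∧
      ((∃ y' : Finset ℕ, y'.card = k ∧ y' ∉ lG h ∪ lS h ∧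
        (HC (insert y' (lS h)) ∨ Inv (lG h) (insert y' (lS h)))) →
        (HC (insert y (lS h)) ∨ Inv (lG h) (insert y (lS h)))) := by
    intro h
    by_cases hc : ∃ y' : Finset ℕ, y'.card = k ∧ y' ∉ lG h ∪ lS h ∧
        (HC (insert y' (lS h)) ∨ Inv (lG h) (insert y' (lS h)))
    · obtain ⟨y', h1, h2, h3⟩ := hc
      exact ⟨y', h1, h2, fun _ => h3⟩
    · obtain ⟨y, h1, h2⟩ := exists_legal hk (lG h ∪ lS h)
      exact ⟨y, h1, h2, fun h => absurd h hc⟩
  choose resp hresp using hex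
  obtain ⟨m, hm⟩ := exists_play (fun h => if p h.length then s h else resp h)
  have hget : ∀ i j : ℕ, j < i → (List.ofFn (fun j : Fin i => m j)).getD j ∅ = m j := by
    intro i j hj
    rw [List.getD_eq_getElem _ _ (by simpa using hj)]
    simp
  have hlG : ∀ i : ℕ, lG (List.ofFn (fun j : Fin i => m j)) = sel p m i := by
    intro i
    simp only [lG, sel, List.length_ofFn]
    apply image_congr
    intro j hj
    simp only [coe_filter, mem_range, Set.mem_ofPred_eq] at hj
    exact hget i j hj.1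
  have hlS : ∀ i : ℕ, lS (List.ofFn (fun j : Fin i => m j)) = sel (fun i => ¬ p i) m i := by
    intro i
    simp only [lS, sel, List.length_ofFn]
    apply image_congr
    intro j hj
    simp only [coe_filter, mem_range, Set.mem_ofPred_eq] at hj
    exact hget i j hj.1
  have hmp : ∀ i, p i → m i = s (List.ofFn (fun j : Fin i => m j)) := by
    intro i hi
    rw [hm i]
    simp only [List.length_ofFn]
    rw [if_pos hi]
  have hmn : ∀ i, ¬ p i → m i = resp (List.ofFn (fun j : Fin i => m j)) := by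
    intro i hi
    rw [hm i]
    simp only [List.length_ofFn]
    rw [if_neg hi]
  have hall : ∀ i j : ℕ, j < i → m j ∈ sel p m i ∪ sel (fun i => ¬ p i) m i := by
    intro i j hj
    rw [mem_union]
    by_cases h : p j
    · exact Or.inl (mem_sel.mpr ⟨j, hj, h, rfl⟩)
    · exact Or.inr (mem_sel.mpr ⟨j, hj, h, rfl⟩)
  have hlegal : ∀ i : ℕ, ¬ p i → (m i).card = k ∧ ∀ j < i, m j ≠ m i := by
    intro i hi
    obtain ⟨h1, h2, _⟩ := hresp (List.ofFn (fun j : Fin i => m j))
    rw [← hmn i hi, hlG, hlS] at h2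
    rw [← hmn i hi] at h1
    exact ⟨h1, fun j hj h => h2 (h ▸ hall i j hj)⟩
  refine ⟨m, hmp, hlegal, ?_⟩
  -- main claim
  have claim : ∀ t : ℕ, p (i0 + 2 * t) ∧
      ((∃ j < i0 + 2 * t, p j ∧ ¬ ((m j).card = k ∧ ∀ l < j, m l ≠ m j)) ∨
        HC (sel (fun i => ¬ p i) m (i0 + 2 * t)) ∨
        Inv (sel p m (i0 + 2 * t)) (sel (fun i => ¬ p i) m (i0 + 2 * t))) := by
    intro t
    induction t with
    | zero => exact ⟨hi0, Or.inr (Or.inr (hbase m))⟩
    | succ t ih =>
      obtain ⟨hpi, ih⟩ := ih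
      set i := i0 + 2 * t with hi
      have hi2 : i0 + 2 * (t + 1) = i + 1 + 1 := by omega
      rw [hi2]
      have hpn : ¬ p (i + 1) := by rw [hp]; exact fun h => h hpi
      have hnp : ¬ p (i + 1) := hpn
      refine ⟨(hp (i + 1)).mpr hpn, ?_⟩
      have e1 : sel p m (i + 1 + 1) = insert (m i) (sel p m i) := by
        rw [sel_succ_neg hpn, sel_succ_pos hpi]
      have e2 : sel (fun i => ¬ p i) m (i + 1 + 1) =
          insert (m (i + 1)) (sel (fun i => ¬ p i) m i) := by
        rw [sel_succ_pos (p := fun i => ¬ p i) hpn,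
          sel_succ_neg (p := fun i => ¬ p i) (fun h => h hpi)]
      rcases ih with ⟨j, hj, hpj, hbad⟩ | hHC | hInv
      · exact Or.inl ⟨j, by omega, hpj, hbad⟩
      · right; left
        rw [e2]
        exact hmono _ _ (subset_insert _ _) hHC
      · by_cases hill : (m i).card = k ∧ ∀ l < i, m l ≠ m i
        · right
          have hnG : m i ∉ sel p m i := by
            intro h
            obtain ⟨j, hj, _, h2⟩ := mem_sel.mp h
            exact hill.2 j hj h2
          have hnS : m i ∉ sel (fun i => ¬ p i) m i := by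
            intro h
            obtain ⟨j, hj, _, h2⟩ := mem_sel.mp h
            exact hill.2 j hj h2
          obtain ⟨_, y, hy1, hy2, hy3, hy4⟩ := hstep _ _ hInv (m i) hnG hnS
          obtain ⟨h1, h2, h3⟩ := hresp (List.ofFn (fun j : Fin (i + 1) => m j))
          rw [← hmn (i + 1) hpn, hlG, hlS] at h2
          rw [← hmn (i + 1) hpn] at h1
          rw [← hmn (i + 1) hpn, hlG, hlS] at h3
          have e3 : sel p m (i + 1) = insert (m i) (sel p m i) := sel_succ_pos hpi
          have e4 : sel (fun i => ¬ p i) m (i + 1) = sel (fun i => ¬ p i) m i :=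
            sel_succ_neg (p := fun i => ¬ p i) (fun h => h hpi)
          rw [e3, e4] at h3
          rw [e1, e2]
          apply h3
          refine ⟨y, hy1, ?_, hy4⟩
          rw [mem_union]
          rintro (h | h)
          · exact hy2 h
          · exact hy3 h
        · exact Or.inl ⟨i, by omega, hpi, hill⟩
  intro M hM hpM hleg hHC
  obtain ⟨t, ht⟩ : ∃ t, M = i0 + 2 * t := by
    obtain ⟨r, hr⟩ := Nat.even_or_odd' (M - i0)
    rcases hr with hr | hr
    · exact ⟨r, by omega⟩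
    · exfalso
      have h1 : M = (i0 + 2 * r) + 1 := by omega
      rw [h1, hp] at hpM
      exact hpM (claim r).1
  rcases (claim t).2 with ⟨j, hj, hpj, hbad⟩ | h | hInv
  · exact absurd (hleg j (by omega) hpj) hbad
  · rw [ht]; exact h
  · exfalso
    rw [← ht] at hInv
    have hill := hleg M le_rfl hpM
    have hnG : m M ∉ sel p m M := by
      intro h
      obtain ⟨j, hj, _, h2⟩ := mem_sel.mp h
      exact hill.2 j hj h2
    have hnS : m M ∉ sel (fun i => ¬ p i) m M := by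
      intro h
      obtain ⟨j, hj, _, h2⟩ := mem_sel.mp h
      exact hill.2 j hj h2
    have := (hstep _ _ hInv (m M) hnG hnS).1
    rw [← sel_succ_pos hpM] at this
    exact this hHC

/-- The two conclusions of the frozen statement, from an invariant. -/
theorem draw_of_inv {k n : ℕ} (H : Finset (Finset (Fin n))) (hk : 0 < k)
    (Inv : Finset (Finset ℕ) → Finset (Finset ℕ) → Prop)
    (hstep : ∀ G S : Finset (Finset ℕ), Inv G S → ∀ e : Finset ℕ, e ∉ G → e ∉ S →
      ¬ (∃ f : Fin n → ℕ, Function.Injective f ∧ ∀ a ∈ H, a.image f ∈ insert e G) ∧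
      ∃ y : Finset ℕ, y.card = k ∧ y ∉ insert e G ∧ y ∉ S ∧
        ((∃ f : Fin n → ℕ, Function.Injective f ∧ ∀ a ∈ H, a.image f ∈ insert y S) ∨
          Inv (insert e G) (insert y S)))
    (h0 : Inv ∅ ∅) (h1 : ∀ x : Finset ℕ, Inv ∅ {x}) :
    (¬ ∃ s : List (Finset ℕ) → Finset ℕ, ∀ m : ℕ → Finset ℕ,
        (∀ i : ℕ, Even i → m i = s (List.ofFn (fun j : Fin i => m j))) →
        (∀ i : ℕ, Odd i → (m i).card = k ∧ ∀ j < i, m j ≠ m i) →
        ∃ N : ℕ, Even N ∧
          (∀ i ≤ N, Even i → (m i).card = k ∧ ∀ j < i, m j ≠ m i) ∧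
          (∃ f : Fin n → ℕ, Function.Injective f ∧
              ∀ e ∈ H, ∃ i ≤ N, Even i ∧ m i = e.image f) ∧
          ¬ (∃ f : Fin n → ℕ, Function.Injective f ∧
              ∀ e ∈ H, ∃ i < N, Odd i ∧ m i = e.image f)) ∧
    (¬ ∃ t : List (Finset ℕ) → Finset ℕ, ∀ m : ℕ → Finset ℕ,
        (∀ i : ℕ, Odd i → m i = t (List.ofFn (fun j : Fin i => m j))) →
        (∀ i : ℕ, Even i → (m i).card = k ∧ ∀ j < i, m j ≠ m i) →
        ∃ N : ℕ, Odd N ∧
          (∀ i ≤ N, Odd i → (m i).card = k ∧ ∀ j < i, m j ≠ m i) ∧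
          (∃ f : Fin n → ℕ, Function.Injective f ∧
              ∀ e ∈ H, ∃ i ≤ N, Odd i ∧ m i = e.image f) ∧
          ¬ (∃ f : Fin n → ℕ, Function.Injective f ∧
              ∀ e ∈ H, ∃ i < N, Even i ∧ m i = e.image f)) := by
  have hmono : ∀ X Y : Finset (Finset ℕ), X ⊆ Y →
      (∃ f : Fin n → ℕ, Function.Injective f ∧ ∀ a ∈ H, a.image f ∈ X) →
      (∃ f : Fin n → ℕ, Function.Injective f ∧ ∀ a ∈ H, a.image f ∈ Y) := by
    rintro X Y hXY ⟨f, hf, h⟩
    exact ⟨f, hf, fun a ha => hXY (h a ha)⟩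
  constructor
  · rintro ⟨s, hs⟩
    obtain ⟨m, hm1, hm2, hm3⟩ := exists_drawing_play hk
      (fun X => ∃ f : Fin n → ℕ, Function.Injective f ∧ ∀ a ∈ H, a.image f ∈ X) hmono Inv hstep
      (fun i => Even i) (fun i => Nat.even_add_one) 0 (by simp)
      (by intro m; simpa [sel] using h0) s
    obtain ⟨M, hM, hleg, ⟨f, hf, hfc⟩, hno⟩ := hs m hm1
      (fun i hi => hm2 i (Nat.not_even_iff_odd.mpr hi))
    obtain ⟨f', hf', hfc'⟩ := hm3 M (Nat.zero_le _) hM hleg ⟨f, hf, by
      intro a ha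
      obtain ⟨i, hi, hie, h⟩ := hfc a ha
      exact mem_sel.mpr ⟨i, by omega, hie, h⟩⟩
    apply hno
    refine ⟨f', hf', ?_⟩
    intro a ha
    obtain ⟨i, hi, hio, h⟩ := mem_sel.mp (hfc' a ha)
    exact ⟨i, hi, Nat.not_even_iff_odd.mp hio, h⟩
  · rintro ⟨t, ht⟩
    obtain ⟨m, hm1, hm2, hm3⟩ := exists_drawing_play hk
      (fun X => ∃ f : Fin n → ℕ, Function.Injective f ∧ ∀ a ∈ H, a.image f ∈ X) hmono Inv hstep
      (fun i => Odd i) (fun i => Nat.odd_add_one) 1 (by simp)
      (by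
        intro m
        have e1 : sel (fun i => Odd i) m 1 = ∅ := by
          ext x
          simp [mem_sel]
        have e2 : sel (fun i => ¬ Odd i) m 1 = {m 0} := by
          ext x
          simp [mem_sel, eq_comm]
        rw [e1, e2]
        exact h1 (m 0)) t
    obtain ⟨M, hM, hleg, ⟨f, hf, hfc⟩, hno⟩ := ht m hm1
      (fun i hi => hm2 i (Nat.not_odd_iff_even.mpr hi))
    obtain ⟨f', hf', hfc'⟩ := hm3 M hM.pos hM hleg ⟨f, hf, by
      intro a ha
      obtain ⟨i, hi, hie, h⟩ := hfc a ha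
      exact mem_sel.mpr ⟨i, by omega, hie, h⟩⟩
    apply hno
    refine ⟨f', hf', ?_⟩
    intro a ha
    obtain ⟨i, hi, hio, h⟩ := mem_sel.mp (hfc' a ha)
    exact ⟨i, hi, Nat.not_odd_iff_even.mp hio, h⟩

end Pool.Agent.Lib.MP_9571c3_co

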