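import Mathlib
import Pool.Agent.Lib.MP_9571c3_co.Design

set_option autoImplicit false
set_option linter.unusedSectionVars false

namespace Pool.Agent.Lib.MP_9571c3_co

open Finset

variable {V : Type} [Fintype V] [DecidableEq V] {d k N ρ : ℕ}

section swap

lemma swap_same {φ : V → ℕ} {a b : V} {f : Finset V} (h : a ∈ f ↔ b ∈ f) :
    f.image (φ ∘ Equiv.swap a b) = f.image φ := by
  rw [← Finset.image_image]
  congr 1
  ext v
  rw [mem_image]
  constructor
  · rintro ⟨u, hu, rfl⟩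
    by_cases hua : u = a
    · subst hua; rw [Equiv.swap_apply_left]; exact h.mp hu
    · by_cases hub : u = b
      · subst hub; rw [Equiv.swap_apply_right]; exact h.mpr hu
      · rw [Equiv.swap_apply_of_ne_of_ne hua hub]; exact hu
  · intro hv
    refine ⟨Equiv.swap a b v, ?_, Equiv.swap_apply_self a b v⟩
    by_cases hua : v = a
    · subst hua; rw [Equiv.swap_apply_left]; exact h.mp hv
    · by_cases hub : v = b
      · subst hub; rw [Equiv.swap_apply_right]; exact h.mpr hv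
      · rw [Equiv.swap_apply_of_ne_of_ne hua hub]; exact hv

lemma swap_new {φ : V → ℕ} {a b : V} {e : Finset V} (ha : a ∉ e) (hb : b ∈ e) :
    e.image (φ ∘ Equiv.swap a b) = insert (φ a) ((e.erase b).image φ) := by
  conv_lhs => rw [← insert_erase hb]
  rw [image_insert]
  congr 1
  · simp
  · apply image_congr
    intro v hv
    rw [coe_erase] at hv
    have h1 : v ≠ b := hv.2
    have h2 : v ≠ a := fun h => ha (h ▸ hv.1)
    simp [Equiv.swap_apply_of_ne_of_ne h2 h1]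

lemma exists_swap {φ : V → ℕ} (hφ : Function.Injective φ) {b : V} {e : Finset V} (hb : b ∈ e)
    {R : Finset V} (hR : ∀ a ∈ R, a ∉ e) {X : Finset (Finset ℕ)} (hX : X.card < R.card) :
    ∃ a ∈ R, e.image (φ ∘ Equiv.swap a b) ∉ X := by
  by_contra hcon
  push Not at hcon
  have h1 : R.card ≤ X.card := by
    apply Finset.card_le_card_of_injOn (fun a => e.image (φ ∘ Equiv.swap a b))
    · intro a ha
      exact hcon a ha
    · intro a ha a' ha' h
      simp only at h
      rw [swap_new (hR a ha) hb, swap_new (hR a' ha') hb] at h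
      have h2 : φ a ∈ insert (φ a') ((e.erase b).image φ) := by
        rw [← h]; exact mem_insert_self _ _
      rw [mem_insert] at h2
      rcases h2 with h2 | h2
      · exact hφ h2
      · exfalso
        rw [mem_im_iff hφ] at h2
        exact hR a ha (mem_of_mem_erase h2)
  omega

end swap

namespace Design

variable (D : Design V d k N ρ)

/-- none of the edges of the copy `g` is claimed by the drawer -/
def Viable (S : Finset (Finset ℕ)) (g : V → ℕ) : Prop := ∀ e ∈ D.H, e.image g ∉ S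

/-- every viable copy has at most `m` edges in `G` -/
def NoThr (G S : Finset (Finset ℕ)) (m : ℕ) : Prop :=
  ∀ g : V → ℕ, Function.Injective g → D.Viable S g → D.cnt G g ≤ m

/-- `X` contains a copy -/
def HasCopy (X : Finset (Finset ℕ)) : Prop :=
  ∃ g : V → ℕ, Function.Injective g ∧ ∀ e ∈ D.H, e.image g ∈ X

/-- coincidence-safe -/
def CoinSafe (φ : V → ℕ) (L L' : Finset V) (G : Finset (Finset ℕ)) : Prop :=
  ∀ g : V → ℕ, Function.Injective g → (∀ e ∈ D.C, e.image g ∈ G) →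
    (∃ f ∈ D.W, (f.erase D.w).image g = (L'.erase D.w).image φ) →
    ∃ f ∈ D.W, (f.erase D.w).image g = (L.erase D.w).image φ

def P0 (G S : Finset (Finset ℕ)) : Prop := G = ∅ ∧ S.card ≤ 1

def P1 (G S : Finset (Finset ℕ)) : Prop :=
  ∃ φ : V → ℕ, Function.Injective φ ∧ ∃ e0 ∈ G, (∀ v, φ v ∉ e0) ∧
    ∃ P ⊆ D.C, (∀ e ∈ P, e.image φ ∈ S) ∧ P.card = G.card ∧ S.card ≤ P.card + 1

def PI (G S : Finset (Finset ℕ)) : Prop :=
  ∃ φ : V → ℕ, Function.Injective φ ∧ ∃ e0 ∈ G, (∀ v, φ v ∉ e0) ∧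
    (∀ e ∈ D.C, e.image φ ∈ S) ∧
    ∃ g0 : V → ℕ, Function.Injective g0 ∧ (∀ y ∈ G, ∃ e ∈ D.H, y = e.image g0) ∧
      G.card = N + 1 ∧ ∃ e1 ∈ D.C, e1.image g0 ∈ S

def PII (G S : Finset (Finset ℕ)) : Prop :=
  ∃ φ : V → ℕ, Function.Injective φ ∧ (∀ e ∈ D.C, e.image φ ∈ S) ∧
    ∃ g0 : V → ℕ, Function.Injective g0 ∧ (∀ v, φ v ≠ g0 D.z) ∧
      (∀ e ∈ D.C, e.image g0 ∈ G) ∧
      ∀ x ∈ G, (∃ e ∈ D.C, x = e.image g0) ∨
        ∃ gx : V → ℕ, Function.Injective gx ∧ (∀ e ∈ D.C, e.image gx = e.image g0) ∧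
          (∃ e ∈ D.W, x = e.image gx) ∧ (D.L1.image gx ∈ S ∨ D.L2.image gx ∈ S) ∧
          ∀ y ∈ G, gx D.w ∈ y → y = x

def P3 (G S : Finset (Finset ℕ)) : Prop :=
  ∃ φ : V → ℕ, Function.Injective φ ∧ (∀ e ∈ D.C, e.image φ ∈ S) ∧
    ∃ L L' : Finset V, ((L = D.L1 ∧ L' = D.L2) ∨ (L = D.L2 ∧ L' = D.L1)) ∧
      L.image φ ∈ S ∧ (∀ y ∈ G, φ D.w ∉ y) ∧ (∀ y ∈ S, φ D.w ∈ y → y = L.image φ) ∧
      D.NoThr G S N ∧ D.CoinSafe φ L L' G

def P4 (G S : Finset (Finset ℕ)) : Prop :=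
  ∃ φ : V → ℕ, Function.Injective φ ∧ (∀ e ∈ D.C, e.image φ ∈ S) ∧
    D.L1.image φ ∈ S ∧ D.L2.image φ ∈ S ∧
    ∃ J ⊆ D.Fl, J.card + 3 ≤ d ∧ (∀ e ∈ J, e.image φ ∈ S) ∧
      D.NoThr G S (N + 1 + J.card) ∧
      (G.filter (fun y => φ D.w ∈ y)).card ≤ J.card + 1 ∧
      (S.filter (fun y => φ D.w ∈ y)).card ≤ J.card + 2

def Inv (G S : Finset (Finset ℕ)) : Prop :=
  Disjoint G S ∧ (P0 G S ∨ D.P1 G S ∨ D.PI G S ∨ D.PII G S ∨ D.P3 G S ∨ D.P4 G S)

variable {D} {G S : Finset (Finset ℕ)}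

lemma NoThr.mono_S {S' : Finset (Finset ℕ)} {m : ℕ} (h : D.NoThr G S m) (hS : S ⊆ S') :
    D.NoThr G S' m :=
  fun g hg hv => h g hg (fun e he h' => hv e he (hS h'))

lemma NoThr.insert {m : ℕ} (h : D.NoThr G S m) (e : Finset ℕ) :
    D.NoThr (insert e G) S (m + 1) :=
  fun g hg hv => (D.cnt_insert_le G hg e).trans (Nat.add_le_add_right (h g hg hv) 1)

lemma cnt_of_copy {g : V → ℕ} (hc : ∀ e ∈ D.H, e.image g ∈ G) : D.cnt G g = N + d := by
  unfold cnt
  rw [filter_true_of_mem hc, D.cardH]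

lemma viable_of_copy {g : V → ℕ} (hdis : Disjoint G S) (hc : ∀ e ∈ D.H, e.image g ∈ G) :
    D.Viable S g := by
  intro e he h
  exact Finset.disjoint_left.mp hdis (hc e he) h

lemma NoThr.noCopy {m : ℕ} (h : D.NoThr G S m) (hdis : Disjoint G S) (hm : m < N + d) :
    ¬ D.HasCopy G := by
  rintro ⟨g, hg, hc⟩
  have := h g hg (viable_of_copy hdis hc)
  rw [cnt_of_copy hc] at this
  omega

lemma noCopy_of_card (h : G.card < N + d) : ¬ D.HasCopy G := by
  rintro ⟨g, hg, hc⟩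
  have := D.cnt_le_card G hg
  rw [cnt_of_copy hc] at this
  omega

lemma legal_card {g : V → ℕ} (hg : Function.Injective g) {e : Finset V} (he : e ∈ D.H) :
    (e.image g).card = k := by
  rw [card_image_of_injective _ hg, D.card_edge he]

/-- building one more core edge -/
lemma build {φ : V → ℕ} (hφ : Function.Injective φ) {e0 : Finset ℕ} (hfar : ∀ v, φ v ∉ e0)
    {P : Finset (Finset V)} (hP : P ⊆ D.C) (hPS : ∀ e ∈ P, e.image φ ∈ S) (hPc : P.card < N)
    (hc : (G ∪ S).card < ρ) :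
    ∃ φ' : V → ℕ, Function.Injective φ' ∧ (∀ v, φ' v ∉ e0) ∧ ∃ e1 ∈ D.C, e1 ∉ P ∧
      (∀ e ∈ P, e.image φ' ∈ S) ∧ e1.image φ' ∉ G ∧ e1.image φ' ∉ S := by
  obtain ⟨e1, he1, he1P⟩ : ∃ e1 ∈ D.C, e1 ∉ P := by
    apply Finset.exists_mem_notMem_of_card_lt_card
    rw [D.cardC]; exact hPc
  obtain ⟨b, hb, R, hR, hRa⟩ := D.swapC e1 he1
  obtain ⟨a, haR, ha⟩ := exists_swap hφ hb (fun a ha => (hRa a ha).2.1) (X := G ∪ S)
    (lt_of_lt_of_le hc hR)
  obtain ⟨haw, hae, haf⟩ := hRa a haR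
  refine ⟨φ ∘ Equiv.swap a b, hφ.comp (Equiv.injective _), fun v => hfar _, e1, he1, he1P, ?_,
    fun h => ha (mem_union_left _ h), fun h => ha (mem_union_right _ h)⟩
  intro e he
  rw [swap_same (haf e (hP he) (fun h => he1P (h ▸ he)))]
  exact hPS e he

/-- attacking at a fresh vertex -/
lemma attack {φ : V → ℕ} (hφ : Function.Injective φ) (hC : ∀ e ∈ D.C, e.image φ ∈ S)
    {L L' : Finset V} (hL : (L = D.L1 ∧ L' = D.L2) ∨ (L = D.L2 ∧ L' = D.L1))
    (hNT : D.NoThr G S N) (hCS : D.CoinSafe φ L L' G) :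
    ∃ y : Finset ℕ, y.card = k ∧ y ∉ G ∧ y ∉ S ∧ D.P3 G (insert y S) := by
  obtain ⟨x, hx⟩ := Infinite.exists_notMem_finset (univ.image φ ∪ (G ∪ S).biUnion id)
  rw [mem_union, mem_biUnion] at hx
  push Not at hx
  obtain ⟨hxφ, hxGS⟩ := hx
  have hxφ' : ∀ v, φ v ≠ x := fun v h => hxφ (mem_image.mpr ⟨v, mem_univ _, h⟩)
  have hxG : ∀ y ∈ G, x ∉ y := fun y hy => hxGS y (mem_union_left _ hy)
  have hxS : ∀ y ∈ S, x ∉ y := fun y hy => hxGS y (mem_union_right _ hy)
  set ψ := Function.update φ D.w x with hψ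
  have hψw : ψ D.w = x := Function.update_self _ _ _
  have hψne : ∀ v, v ≠ D.w → ψ v = φ v := fun v hv => Function.update_of_ne hv _ _
  have hψi : Function.Injective ψ := by
    intro u v huv
    by_cases hu : u = D.w
    · by_cases hv : v = D.w
      · rw [hu, hv]
      · exfalso
        rw [hu, hψw, hψne v hv] at huv
        exact hxφ' v huv.symm
    · by_cases hv : v = D.w
      · exfalso
        rw [hv, hψw, hψne u hu] at huv
        exact hxφ' u huv
      · rw [hψne u hu, hψne v hv] at huv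
        exact hφ huv
  have him : ∀ e : Finset V, D.w ∉ e → e.image ψ = e.image φ := by
    intro e he
    apply image_congr
    intro v hv
    exact hψne v (fun h => he (h ▸ hv))
  have hLH : L ∈ D.H := by
    rcases hL with ⟨rfl, _⟩ | ⟨rfl, _⟩
    · exact D.L1_mem_H
    · exact D.L2_mem_H
  have hwL : D.w ∈ L := by
    rcases hL with ⟨rfl, _⟩ | ⟨rfl, _⟩
    · exact D.wL1
    · exact D.wL2
  have hxL : x ∈ L.image ψ := by
    rw [← hψw]; exact mem_image_of_mem ψ hwL
  refine ⟨L.image ψ, legal_card hψi hLH, fun h => hxG _ h hxL, fun h => hxS _ h hxL, ψ, hψi,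
    ?_, L, L', hL, mem_insert_self _ _, ?_, ?_, hNT.mono_S (subset_insert _ _), ?_⟩
  · intro e he
    rw [him e (D.wC e he)]
    exact mem_insert_of_mem (hC e he)
  · intro y hy
    rw [hψw]
    exact hxG y hy
  · intro y hy hxy
    rw [hψw] at hxy
    rcases mem_insert.mp hy with h | h
    · exact h
    · exact absurd hxy (hxS y h)
  · intro g hg hgC hf
    rw [him _ (notMem_erase _ _)] at hf
    rw [him _ (notMem_erase _ _)]
    exact hCS g hg hgC hf

/-- a copy whose core shares `N - 1` edges with another copy -/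
lemma coreClose {g g0 : V → ℕ} (hg : Function.Injective g) (hg0 : Function.Injective g0)
    {P : Finset (Finset V)} (hP : P ⊆ D.C) (hc : N ≤ P.card + 1)
    (h : ∀ f ∈ P, ∃ f' ∈ D.H, f.image g = f'.image g0) :
    g D.z = g0 D.z := by
  have hN := D.hN
  have hX : 3 ≤ (D.H.filter (fun e => ∃ e' ∈ D.H, e.image g = e'.image g0)).card := by
    have : P ⊆ D.H.filter (fun e => ∃ e' ∈ D.H, e.image g = e'.image g0) := by
      intro f hf
      exact mem_filter.mpr ⟨D.C_sub (hP hf), h f hf⟩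
    have := card_le_card this
    omega
  apply D.Vz hg0
  have h2 : P ⊆ D.C.filter (fun e => e.image g = e.image g0) := by
    intro f hf
    obtain ⟨f', hf', hff⟩ := h f hf
    have := D.roles hg hg0 hX (D.C_sub (hP hf)) hf' hff
    rw [← this] at hff
    exact mem_filter.mpr ⟨hP hf, hff⟩
  have := card_le_card h2
  omega

lemma card_core_in {g : V → ℕ} (hg : Function.Injective g) {e : Finset ℕ}
    (h : ∀ f ∈ D.C, f.image g ∈ insert e G) :
    N ≤ (D.C.filter (fun f => f.image g ∈ G)).card + 1 := by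
  have h1 : D.C ⊆ D.C.filter (fun f => f.image g ∈ G) ∪ D.C.filter (fun f => f.image g = e) := by
    intro f hf
    rw [mem_union, mem_filter, mem_filter]
    rcases mem_insert.mp (h f hf) with h' | h'
    · exact Or.inr ⟨hf, h'⟩
    · exact Or.inl ⟨hf, h'⟩
  have h2 : (D.C.filter (fun f => f.image g = e)).card ≤ 1 := by
    rw [card_le_one]
    intro a ha b hb
    rw [mem_filter] at ha hb
    exact im_inj hg (ha.2.trans hb.2.symm)
  have h3 := card_le_card h1
  have h4 := card_union_le (D.C.filter (fun f => f.image g ∈ G))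
    (D.C.filter (fun f => f.image g = e))
  rw [D.cardC] at h3
  omega

/-- a link contains the image of the universal vertex -/
lemma coin_z {φ g : V → ℕ} {L' : Finset V} (hz : ∀ v, φ v ≠ g D.z)
    (hf : ∃ f ∈ D.W, (f.erase D.w).image g = (L'.erase D.w).image φ) : False := by
  obtain ⟨f, hf, h⟩ := hf
  have : g D.z ∈ (f.erase D.w).image g :=
    mem_image_of_mem g (mem_erase.mpr ⟨D.zw, D.z_mem (D.W_sub hf)⟩)
  rw [h] at this
  obtain ⟨v, _, hv⟩ := mem_image.mp this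
  exact hz v hv

end Design

end Pool.Agent.Lib.MP_9571c3_co
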