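import Mathlib
import Pool.Agent.Lib.MP_9571c3_co.Phases

set_option autoImplicit false
set_option linter.unusedSectionVars false

namespace Pool.Agent.Lib.MP_9571c3_co

open Finset

variable {V : Type} [Fintype V] [DecidableEq V] {d k N ρ : ℕ}

namespace Design

variable {D : Design V d k N ρ} {G S : Finset (Finset ℕ)}

lemma all_in {g : V → ℕ} (hg : Function.Injective g) (hc : G.card ≤ D.cnt G g) :
    ∀ y ∈ G, ∃ e ∈ D.H, y = e.image g := by
  have h1 : (D.H.filter (fun e => e.image g ∈ G)).image (fun e => e.image g) = G := by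
    apply Finset.eq_of_subset_of_card_le
    · intro y hy
      obtain ⟨e, he, rfl⟩ := mem_image.mp hy
      exact (mem_filter.mp he).2
    · rw [card_image_of_injective _ (Finset.image_injective hg)]
      exact hc
  intro y hy
  rw [← h1] at hy
  obtain ⟨e, he, rfl⟩ := mem_image.mp hy
  exact ⟨e, (mem_filter.mp he).1, rfl⟩

lemma other_L {h : Finset V} : ∃ L : Finset V, (L = D.L1 ∨ L = D.L2) ∧ L ≠ h := by
  by_cases h1 : h = D.L1
  · exact ⟨D.L2, Or.inr rfl, fun h2 => D.L12 (h1 ▸ h2.symm)⟩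
  · exact ⟨D.L1, Or.inl rfl, fun h2 => h1 h2.symm⟩

lemma L_mem_W {L : Finset V} (hL : L = D.L1 ∨ L = D.L2) : L ∈ D.W := by
  rcases hL with rfl | rfl
  · exact D.L1_mem_W
  · exact D.L2_mem_W

lemma L_mem_insert {g : V → ℕ} {L : Finset V} (hL : L = D.L1 ∨ L = D.L2) :
    D.L1.image g ∈ insert (L.image g) S ∨ D.L2.image g ∈ insert (L.image g) S := by
  rcases hL with rfl | rfl
  · exact Or.inl (mem_insert_self _ _)
  · exact Or.inr (mem_insert_self _ _)

/-- first threat, killed -/
lemma entry_threat {φ : V → ℕ} (hφ : Function.Injective φ) {e0 : Finset ℕ} (he0 : e0 ∈ G)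
    (hfar : ∀ v, φ v ∉ e0) (hC : ∀ e ∈ D.C, e.image φ ∈ S) (hG : G.card = N + 1)
    {g : V → ℕ} (hg : Function.Injective g) (hv : D.Viable S g) (hc : N + 1 ≤ D.cnt G g) :
    ∃ y : Finset ℕ, y.card = k ∧ y ∉ G ∧ y ∉ S ∧ (D.PI G (insert y S) ∨ D.PII G (insert y S)) := by
  have hall := all_in (D := D) hg (hG ▸ hc : G.card ≤ D.cnt G g)
  have hz : ∀ v, φ v ≠ g D.z := by
    intro v hvz
    obtain ⟨e, he, hee⟩ := hall e0 he0
    apply hfar v
    rw [hvz, hee]
    exact mem_image_of_mem g (D.z_mem he)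
  by_cases hcore : ∀ e ∈ D.C, e.image g ∈ G
  · -- complete core
    have hsub : D.C.image (fun e => e.image g) ⊆ G := by
      intro y hy
      obtain ⟨e, he, rfl⟩ := mem_image.mp hy
      exact hcore e he
    have hcardI : (D.C.image (fun e => e.image g)).card = N := by
      rw [card_image_of_injective _ (Finset.image_injective hg), D.cardC]
    obtain ⟨x, hxG, hxC⟩ : ∃ x ∈ G, x ∉ D.C.image (fun e => e.image g) := by
      apply Finset.exists_mem_notMem_of_card_lt_card
      omega
    have hGx : G = insert x (D.C.image (fun e => e.image g)) := by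
      symm
      apply Finset.eq_of_subset_of_card_le
      · exact insert_subset hxG hsub
      · rw [card_insert_of_notMem hxC, hcardI, hG]
    obtain ⟨ex, hex, hxe⟩ := hall x hxG
    have hexW : ex ∈ D.W := by
      rcases D.mem_H.mp hex with h | h
      · exact absurd (mem_image.mpr ⟨ex, h, hxe.symm⟩) hxC
      · exact h
    obtain ⟨L, hL, hLex⟩ := other_L (D := D) (h := ex)
    have hLW : L ∈ D.W := L_mem_W hL
    refine ⟨L.image g, legal_card hg (D.W_sub hLW), ?_, hv L (D.W_sub hLW), Or.inr ?_⟩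
    · rw [hGx, mem_insert]
      rintro (h | h)
      · rw [hxe] at h
        exact hLex (im_inj hg h)
      · obtain ⟨e, he, hee⟩ := mem_image.mp h
        have := im_inj hg hee
        rw [this] at he
        exact D.wC L he (D.w_mem_of_W hLW)
    · refine ⟨φ, hφ, fun e he => mem_insert_of_mem (hC e he), g, hg, hz, hcore, ?_⟩
      intro x' hx'
      by_cases hx'C : x' ∈ D.C.image (fun e => e.image g)
      · left
        obtain ⟨e, he, hee⟩ := mem_image.mp hx'C
        exact ⟨e, he, hee.symm⟩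
      · right
        have hx'x : x' = x := by
          rw [hGx, mem_insert] at hx'
          exact hx'.resolve_right hx'C
        refine ⟨g, hg, fun e he => rfl, ⟨ex, hexW, hx'x.trans hxe⟩, L_mem_insert hL, ?_⟩
        intro y hy hwy
        rw [hGx, mem_insert] at hy
        rcases hy with hy | hy
        · rw [hy, hx'x]
        · exfalso
          obtain ⟨e, he, rfl⟩ := mem_image.mp hy
          rw [mem_im_iff hg] at hwy
          exact D.wC e he hwy
  · -- incomplete core
    push Not at hcore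
    obtain ⟨e1, he1, he1G⟩ := hcore
    refine ⟨e1.image g, legal_card hg (D.C_sub he1), he1G, hv e1 (D.C_sub he1), Or.inl ?_⟩
    exact ⟨φ, hφ, e0, he0, hfar, fun e he => mem_insert_of_mem (hC e he), g, hg, hall, hG,
      e1, he1, mem_insert_self _ _⟩

/-- the type of the attack can be chosen -/
lemma entry_calm {φ : V → ℕ} (hφ : Function.Injective φ) {e0 : Finset ℕ} (he0 : e0 ∈ G)
    (hfar : ∀ v, φ v ∉ e0) (hG : G.card = N + 1) :
    D.CoinSafe φ D.L1 D.L2 G ∨ D.CoinSafe φ D.L2 D.L1 G := by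
  by_contra hcon
  rw [not_or] at hcon
  obtain ⟨h1, h2⟩ := hcon
  unfold CoinSafe at h1 h2
  push Not at h1 h2
  obtain ⟨ga, hga, hgaC, ⟨fa, hfa, hfae⟩, hna⟩ := h1
  obtain ⟨gb, hgb, hgbC, ⟨fb, hfb, hfbe⟩, hnb⟩ := h2
  -- cores avoid e0
  have key : ∀ g : V → ℕ, Function.Injective g → (∀ e ∈ D.C, e.image g ∈ G) →
      (∃ v, φ v = g D.z) → D.C.image (fun e => e.image g) = G.erase e0 := by
    rintro g hg hgC ⟨v, hv⟩
    apply Finset.eq_of_subset_of_card_le
    · intro y hy
      obtain ⟨e, he, rfl⟩ := mem_image.mp hy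
      refine mem_erase.mpr ⟨?_, hgC e he⟩
      intro h
      apply hfar v
      rw [hv, ← h]
      exact mem_image_of_mem g (D.z_mem (D.C_sub he))
    · rw [card_image_of_injective _ (Finset.image_injective hg), D.cardC,
        card_erase_of_mem he0, hG]
      omega
  have hzz : ∀ g : V → ℕ, ∀ f ∈ D.W, ∀ L : Finset V,
      (f.erase D.w).image g = (L.erase D.w).image φ → ∃ v, φ v = g D.z := by
    intro g f hf L h
    have : g D.z ∈ (f.erase D.w).image g :=
      mem_image_of_mem g (mem_erase.mpr ⟨D.zw, D.z_mem (D.W_sub hf)⟩)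
    rw [h] at this
    obtain ⟨v, _, hv⟩ := mem_image.mp this
    exact ⟨v, hv⟩
  have ka := key ga hga hgaC (hzz ga fa hfa _ hfae)
  have kb := key gb hgb hgbC (hzz gb fb hfb _ hfbe)
  have hN := D.hN
  have hshare : ∀ e ∈ D.C, ∃ e' ∈ D.C, e.image ga = e'.image gb := by
    intro e he
    have : e.image ga ∈ D.C.image (fun e => e.image gb) := by
      rw [kb, ← ka]
      exact mem_image_of_mem _ he
    obtain ⟨e', he', hee⟩ := mem_image.mp this
    exact ⟨e', he', hee.symm⟩
  have hX : 3 ≤ (D.H.filter (fun e => ∃ e' ∈ D.H, e.image ga = e'.image gb)).card := by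
    have : D.C ⊆ D.H.filter (fun e => ∃ e' ∈ D.H, e.image ga = e'.image gb) := by
      intro f hf
      obtain ⟨f', hf', h⟩ := hshare f hf
      exact mem_filter.mpr ⟨D.C_sub hf, f', D.C_sub hf', h⟩
    have := card_le_card this
    rw [D.cardC] at this
    omega
  have hK : N ≤ (D.K ga gb).card := by
    have : D.C ⊆ D.K ga gb := by
      intro f hf
      obtain ⟨f', hf', h⟩ := hshare f hf
      have h2 := D.roles hga hgb hX (D.C_sub hf) (D.C_sub hf') h
      rw [← h2] at h
      exact D.mem_K.mpr ⟨D.C_sub hf, h⟩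
    have := card_le_card this
    rw [D.cardC] at this
    exact this
  have hL1 := D.V5 hga hgb hK (Or.inl rfl : D.L1 = D.L1 ∨ D.L1 = D.L2)
  have hL2 := D.V5 hga hgb hK (Or.inr rfl : D.L2 = D.L1 ∨ D.L2 = D.L2)
  have hfaF : fa ∈ D.Fl := by
    rcases D.mem_W.mp hfa with h | h | h
    · exfalso
      subst h
      exact hnb D.L1 D.L1_mem_W (hL1 ▸ hfae)
    · exfalso
      subst h
      exact hnb D.L2 D.L2_mem_W (hL2 ▸ hfae)
    · exact h
  have hfbF : fb ∈ D.Fl := by
    rcases D.mem_W.mp hfb with h | h | h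
    · exfalso
      subst h
      exact hna D.L1 D.L1_mem_W (hL1.symm ▸ hfbe)
    · exfalso
      subst h
      exact hna D.L2 D.L2_mem_W (hL2.symm ▸ hfbe)
    · exact h
  -- cardinalities
  have hclose := D.close fa hfaF fb hfbF
  have e1 : ∀ f ∈ D.W, ((f.erase D.w) ∩ (D.L1.erase D.w)).card + 1 = (f ∩ D.L1).card := by
    intro f hf
    have : (f.erase D.w) ∩ (D.L1.erase D.w) = (f ∩ D.L1).erase D.w := by
      ext v
      simp only [mem_inter, mem_erase]
      tauto
    rw [this, card_erase_of_mem (mem_inter.mpr ⟨D.w_mem_of_W hf, D.wL1⟩)]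
    have : 0 < (f ∩ D.L1).card := card_pos.mpr ⟨D.w, mem_inter.mpr ⟨D.w_mem_of_W hf, D.wL1⟩⟩
    omega
  set Λ := (D.L1.erase D.w).image ga with hΛ
  set A := (fa.erase D.w).image ga with hA
  set B := (fb.erase D.w).image gb with hB
  have cΛ : Λ.card + 1 = k := by
    rw [hΛ, card_image_of_injective _ hga, card_erase_of_mem D.wL1, D.card_edge D.L1_mem_H]
    have : 0 < k := by
      rw [← D.card_edge D.L1_mem_H]; exact card_pos.mpr ⟨D.w, D.wL1⟩
    omega
  have cA : (A ∩ Λ).card + 1 = (fa ∩ D.L1).card := by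
    rw [hA, hΛ, card_inter_im hga, e1 fa hfa]
  have cB : (B ∩ Λ).card + 1 = (fb ∩ D.L1).card := by
    rw [hB, hL1, card_inter_im hgb, e1 fb hfb]
  have cAB : (A ∩ B).card + 1 = (D.L1 ∩ D.L2).card := by
    rw [hfae, hfbe, card_inter_im hφ, e1 D.L2 D.L2_mem_W, inter_comm]
  have hincl : (A ∩ Λ).card + (B ∩ Λ).card ≤ (A ∩ B).card + Λ.card := by
    have h3 := card_union_add_card_inter (A ∩ Λ) (B ∩ Λ)
    have h4 : ((A ∩ Λ) ∪ (B ∩ Λ)).card ≤ Λ.card :=
      card_le_card (union_subset inter_subset_right inter_subset_right)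
    have h5 : ((A ∩ Λ) ∩ (B ∩ Λ)).card ≤ (A ∩ B).card := by
      apply card_le_card
      intro v hv
      simp only [mem_inter] at hv ⊢
      exact ⟨hv.1.1, hv.2.1⟩
    omega
  omega

/-- after the kill in case I the opponent never threatens -/
lemma stepPI (h : D.PI G S) (e : Finset ℕ) :
    D.NoThr (insert e G) S N ∧ ∃ φ : V → ℕ, Function.Injective φ ∧
      (∀ e ∈ D.C, e.image φ ∈ S) ∧ D.CoinSafe φ D.L1 D.L2 (insert e G) := by
  obtain ⟨φ, hφ, e0, he0, hfar, hC, g0, hg0, hall, hG, e1, he1, he1S⟩ := h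
  have hN := D.hN
  constructor
  · intro g' hg' hv
    by_contra hcon
    push Not at hcon
    have h1 := D.cnt_insert_le G hg' e
    have h2 : N ≤ D.cnt G g' := by omega
    unfold cnt at h2
    have hX : 3 ≤ (D.H.filter (fun e => ∃ e' ∈ D.H, e.image g' = e'.image g0)).card := by
      have : D.H.filter (fun e => e.image g' ∈ G) ⊆
          D.H.filter (fun e => ∃ e' ∈ D.H, e.image g' = e'.image g0) := by
        intro f hf
        rw [mem_filter] at hf
        obtain ⟨e', he', h⟩ := hall _ hf.2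
        exact mem_filter.mpr ⟨hf.1, e', he', h⟩
      have := card_le_card this
      omega
    have hK : N ≤ (D.K g' g0).card := by
      refine h2.trans (card_le_card ?_)
      intro f hf
      rw [mem_filter] at hf
      obtain ⟨e', he', h⟩ := hall _ hf.2
      have h3 := D.roles hg' hg0 hX hf.1 he' h
      rw [← h3] at h
      exact D.mem_K.mpr ⟨hf.1, h⟩
    have h4 := D.V4 hg' hg0 hK he1
    exact hv e1 (D.C_sub he1) (h4 ▸ he1S)
  · refine ⟨φ, hφ, hC, ?_⟩
    intro g hg hgC hf
    exfalso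
    have hc := card_core_in (D := D) hg hgC
    have hz : g D.z = g0 D.z := by
      apply coreClose hg hg0 (filter_subset _ _) hc
      intro f hf
      rw [mem_filter] at hf
      exact hall _ hf.2
    refine coin_z (D := D) (φ := φ) (g := g) ?_ hf
    intro v hv
    obtain ⟨f0, hf0, h0⟩ := hall e0 he0
    apply hfar v
    rw [hv, hz, h0]
    exact mem_image_of_mem g0 (D.z_mem hf0)

end Design

end Pool.Agent.Lib.MP_9571c3_co
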