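import Mathlib
import Pool.Agent.Lib.MP_9571c3_co.Steps

set_option autoImplicit false
set_option linter.unusedSectionVars false

namespace Pool.Agent.Lib.MP_9571c3_co

open Finset

variable {V : Type} [Fintype V] [DecidableEq V] {d k N ρ : ℕ}

namespace Design

variable {D : Design V d k N ρ} {G S : Finset (Finset ℕ)}

/-- analysis of the threats in state II -/
lemma claimPII {g0 : V → ℕ} (hg0 : Function.Injective g0)
    (hx : ∀ x ∈ G, (∃ e ∈ D.C, x = e.image g0) ∨
        ∃ gx : V → ℕ, Function.Injective gx ∧ (∀ e ∈ D.C, e.image gx = e.image g0) ∧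
          (∃ e ∈ D.W, x = e.image gx) ∧ (D.L1.image gx ∈ S ∨ D.L2.image gx ∈ S) ∧
          ∀ y ∈ G, gx D.w ∈ y → y = x) {e : Finset ℕ} (heG : e ∉ G)
    {g : V → ℕ} (hg : Function.Injective g) (hv : D.Viable S g)
    (hc : N + 1 ≤ D.cnt (insert e G) g) :
    (∀ f ∈ D.C, f.image g = f.image g0) ∧ (∃ f ∈ D.W, e = f.image g) ∧ ∀ y ∈ G, g D.w ∉ y := by
  have hN := D.hN
  -- degree of the special vertices
  have hdeg2 : ∀ x : Finset ℕ, ∀ u : ℕ, (∀ y ∈ G, u ∈ y → y = x) →
      ((insert e G).filter (fun y => u ∈ y)).card ≤ 2 := by
    intro x u hu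
    have : (insert e G).filter (fun y => u ∈ y) ⊆ {x, e} := by
      intro y hy
      rw [mem_filter, mem_insert] at hy
      rw [mem_insert, mem_singleton]
      rcases hy.1 with h | h
      · exact Or.inr h
      · exact Or.inl (hu y h hy.2)
    exact (card_le_card this).trans card_le_two
  -- special vertices used by `g` are the image of `w`
  have hspec : ∀ x : Finset ℕ, ∀ u : ℕ, (∀ y ∈ G, u ∈ y → y = x) → ∀ a, g a = u → a = D.w := by
    intro x u hu a ha
    by_contra haw
    have h1 := D.LD hg hc haw
    rw [ha] at h1
    have := hdeg2 x u hu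
    omega
  -- the filter of edges of `g` equal to `e`
  have hone : (D.H.filter (fun h => h.image g = e)).card ≤ 1 := by
    rw [card_le_one]
    intro a ha b hb
    rw [mem_filter] at ha hb
    exact im_inj hg (ha.2.trans hb.2.symm)
  -- core edges of `g` in `G` are core edges of `g0`
  have hcoreG : ∀ f ∈ D.C, f.image g ∈ G → ∃ f' ∈ D.C, f.image g = f'.image g0 := by
    intro f hf hfG
    rcases hx _ hfG with h | ⟨gx, hgx, hgxC, ⟨ex, hex, hxe⟩, _, huniq⟩
    · exact h
    · exfalso
      have h1 : gx D.w ∈ f.image g := by
        rw [hxe]; exact mem_image_of_mem gx (D.w_mem_of_W hex)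
      obtain ⟨a, ha, hga⟩ := mem_image.mp h1
      have := hspec _ _ huniq a hga
      rw [this] at ha
      exact D.wC f hf ha
  -- no special edge belongs to `g`
  have hA : ∀ h ∈ D.H, h.image g ∈ G → ∃ f' ∈ D.C, h.image g = f'.image g0 := by
    intro f hf hfG
    rcases hx _ hfG with h | ⟨gx, hgx, hgxC, ⟨ex, hex, hxe⟩, hSx, huniq⟩
    · exact h
    · exfalso
      have h1 : gx D.w ∈ f.image g := by
        rw [hxe]; exact mem_image_of_mem gx (D.w_mem_of_W hex)
      obtain ⟨a, ha, hga⟩ := mem_image.mp h1
      have haw := hspec _ _ huniq a hga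
      rw [haw] at ha hga
      have hfW := D.mem_W_of_w_mem hf ha
      -- count
      set P := D.C.filter (fun f => f.image g ∈ G) with hP
      have hsub : D.H.filter (fun h => h.image g ∈ insert e G) ⊆
          insert f P ∪ D.H.filter (fun h => h.image g = e) := by
        intro h hh
        rw [mem_filter, mem_insert] at hh
        rw [mem_union, mem_insert, hP, mem_filter, mem_filter]
        rcases hh.2 with h2 | h2
        · exact Or.inr ⟨hh.1, h2⟩
        · left
          rcases D.mem_H.mp hh.1 with h3 | h3
          · exact Or.inr ⟨h3, h2⟩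
          · left
            have h4 : gx D.w ∈ h.image g := by
              rw [← hga]; exact mem_image_of_mem g (D.w_mem_of_W h3)
            exact im_inj hg (huniq _ h2 h4)
      have hfP : f ∉ P := by
        rw [hP, mem_filter]
        rintro ⟨h, _⟩
        exact D.wC f h ha
      have hPc : N ≤ P.card + 1 := by
        have h2 := card_le_card hsub
        have h3 := card_union_le (insert f P) (D.H.filter (fun h => h.image g = e))
        rw [card_insert_of_notMem hfP] at h3
        have h4 : N + 1 ≤ (D.H.filter (fun h => h.image g ∈ insert e G)).card := hc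
        omega
      have hshare : ∀ h ∈ insert f P, h ∈ D.H ∧ ∃ e' ∈ D.H, h.image g = e'.image gx := by
        intro h hh
        rw [mem_insert] at hh
        rcases hh with rfl | hh
        · exact ⟨hf, ex, D.W_sub hex, hxe⟩
        · rw [hP, mem_filter] at hh
          obtain ⟨f', hf', h5⟩ := hcoreG h hh.1 hh.2
          exact ⟨D.C_sub hh.1, f', D.C_sub hf', by rw [hgxC f' hf', h5]⟩
      have hcI : N ≤ (insert f P).card := by
        rw [card_insert_of_notMem hfP]; exact hPc
      have hX : 3 ≤ (D.H.filter (fun e => ∃ e' ∈ D.H, e.image g = e'.image gx)).card := by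
        have : insert f P ⊆ D.H.filter (fun e => ∃ e' ∈ D.H, e.image g = e'.image gx) := by
          intro h hh
          exact mem_filter.mpr (hshare h hh)
        have := card_le_card this
        omega
      have hK : N ≤ (D.K g gx).card := by
        refine hcI.trans (card_le_card ?_)
        intro h hh
        obtain ⟨hhH, e', he', h6⟩ := hshare h hh
        have h7 := D.roles hg hgx hX hhH he' h6
        rw [← h7] at h6
        exact D.mem_K.mpr ⟨hhH, h6⟩
      rcases hSx with h8 | h8
      · apply hv D.L1 D.L1_mem_H
        rw [D.V6 hg hgx hK hga (Or.inl rfl)]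
        exact h8
      · apply hv D.L2 D.L2_mem_H
        rw [D.V6 hg hgx hK hga (Or.inr rfl)]
        exact h8
  -- part (b)
  set P := D.H.filter (fun h => h.image g ∈ G) with hP
  have hPc : N ≤ P.card := by
    have h1 := D.cnt_insert_le G hg e
    have h2 : D.cnt G g = P.card := rfl
    omega
  have hX : 3 ≤ (D.H.filter (fun e => ∃ e' ∈ D.H, e.image g = e'.image g0)).card := by
    have : P ⊆ D.H.filter (fun e => ∃ e' ∈ D.H, e.image g = e'.image g0) := by
      intro h hh
      rw [hP, mem_filter] at hh
      obtain ⟨f', hf', h5⟩ := hA h hh.1 hh.2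
      exact mem_filter.mpr ⟨hh.1, f', D.C_sub hf', h5⟩
    have := card_le_card this
    omega
  have hPC : P ⊆ D.C := by
    intro h hh
    rw [hP, mem_filter] at hh
    obtain ⟨f', hf', h5⟩ := hA h hh.1 hh.2
    rw [D.roles hg hg0 hX hh.1 (D.C_sub hf') h5]
    exact hf'
  have hPeq : P = D.C := by
    apply Finset.eq_of_subset_of_card_le hPC
    rw [D.cardC]; exact hPc
  have hCg : ∀ f ∈ D.C, f.image g ∈ G := by
    intro f hf
    rw [← hPeq, hP, mem_filter] at hf
    exact hf.2
  have hCgg : ∀ f ∈ D.C, f.image g = f.image g0 := by
    intro f hf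
    obtain ⟨f', hf', h5⟩ := hA f (D.C_sub hf) (hCg f hf)
    rw [h5, D.roles hg hg0 hX (D.C_sub hf) (D.C_sub hf') h5]
  refine ⟨hCgg, ?_, ?_⟩
  · -- e is an edge of g
    have h1 : P.card < (D.H.filter (fun h => h.image g ∈ insert e G)).card := by
      have : N + 1 ≤ (D.H.filter (fun h => h.image g ∈ insert e G)).card := hc
      rw [hPeq, D.cardC]; omega
    obtain ⟨h, hh, hhP⟩ := Finset.exists_mem_notMem_of_card_lt_card h1
    rw [mem_filter, mem_insert] at hh
    have hhG : h.image g ∉ G := fun h2 => hhP (mem_filter.mpr ⟨hh.1, h2⟩)
    have hhe : h.image g = e := hh.2.resolve_right hhG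
    refine ⟨h, ?_, hhe.symm⟩
    rcases D.mem_H.mp hh.1 with h3 | h3
    · exact absurd (hCg h h3) hhG
    · exact h3
  · intro y hy hwy
    rcases hx y hy with ⟨f', hf', h5⟩ | ⟨gx, hgx, hgxC, ⟨ex, hex, hxe⟩, hSx, huniq⟩
    · rw [h5, ← hCgg f' hf', mem_im_iff hg] at hwy
      exact D.wC f' hf' hwy
    · have hK : N ≤ (D.K g gx).card := by
        have : D.C ⊆ D.K g gx := by
          intro f hf
          exact D.mem_K.mpr ⟨D.C_sub hf, by rw [hCgg f hf, hgxC f hf]⟩
        have := card_le_card this
        rw [D.cardC] at this
        exact this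
      rw [hxe] at hwy
      obtain ⟨b, _, hb⟩ := mem_image.mp hwy
      have hbw := D.V3 hg hgx hK hb.symm
      rw [hbw] at hb
      rcases hSx with h8 | h8
      · apply hv D.L1 D.L1_mem_H
        rw [D.V6 hg hgx hK hb.symm (Or.inl rfl)]
        exact h8
      · apply hv D.L2 D.L2_mem_H
        rw [D.V6 hg hgx hK hb.symm (Or.inr rfl)]
        exact h8

/-- state II: the opponent does not complete a copy and the drawer has a reply -/
lemma stepPII (h : D.PII G S) {e : Finset ℕ} (heG : e ∉ G) (hdis : Disjoint (insert e G) S) :
    ¬ D.HasCopy (insert e G) ∧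
    ∃ y : Finset ℕ, y.card = k ∧ y ∉ insert e G ∧ y ∉ S ∧
      (D.PII (insert e G) (insert y S) ∨ D.P3 (insert e G) (insert y S)) := by
  obtain ⟨φ, hφ, hC, g0, hg0, hz, hg0C, hx⟩ := h
  have hN := D.hN
  have hd := D.hd
  constructor
  · rintro ⟨g, hg, hc⟩
    have h1 := viable_of_copy (D := D) hdis hc
    have h2 := cnt_of_copy (D := D) hc
    obtain ⟨_, _, h3⟩ := claimPII hg0 hx heG hg h1 (by omega)
    have key : ∀ L ∈ D.W, L.image g = e := by
      intro L hL
      have h4 := hc L (D.W_sub hL)
      rcases mem_insert.mp h4 with h5 | h5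
      · exact h5
      · exact absurd (mem_image_of_mem g (D.w_mem_of_W hL)) (h3 _ h5)
    exact D.L12 (im_inj hg ((key D.L1 D.L1_mem_W).trans (key D.L2 D.L2_mem_W).symm))
  · by_cases hNT : D.NoThr (insert e G) S N
    · -- attack
      have hCS : D.CoinSafe φ D.L1 D.L2 (insert e G) := by
        intro g hg hgC hf
        exfalso
        have hc := card_core_in (D := D) hg hgC
        have hzz : g D.z = g0 D.z := by
          apply coreClose hg hg0 (filter_subset _ _) hc
          intro f hf
          rw [mem_filter] at hf
          rcases hx _ hf.2 with ⟨f', hf', h5⟩ | ⟨gx, hgx, hgxC, ⟨ex, hex, hxe⟩, hSx, huniq⟩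
          · exact ⟨f', D.C_sub hf', h5⟩
          · exfalso
            have h1 : gx D.w ∈ f.image g := by
              rw [hxe]; exact mem_image_of_mem gx (D.w_mem_of_W hex)
            obtain ⟨a, ha, hga⟩ := mem_image.mp h1
            have haw : a ≠ D.w := by
              rintro rfl
              exact D.wC f hf.1 ha
            have h6 := D.LD' hg hgC haw
            have h7 : (insert e G).filter (fun y => g a ∈ y) ⊆ {f.image g, e} := by
              intro y hy
              rw [mem_filter, mem_insert] at hy
              rw [mem_insert, mem_singleton]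
              rcases hy.1 with h | h
              · exact Or.inr h
              · exact Or.inl (huniq y h (hga ▸ hy.2))
            have h8 := (card_le_card h7).trans card_le_two
            omega
        refine coin_z (D := D) (φ := φ) (g := g) ?_ hf
        intro v hv
        exact hz v (hv.trans hzz)
      obtain ⟨y, h1, h2, h3, h4⟩ := attack hφ hC (Or.inl ⟨rfl, rfl⟩) hNT hCS
      exact ⟨y, h1, h2, h3, Or.inr h4⟩
    · -- kill
      unfold NoThr at hNT
      push Not at hNT
      obtain ⟨g, hg, hv, hc⟩ := hNT
      obtain ⟨h1, ⟨h, hh, hhe⟩, h3⟩ := claimPII hg0 hx heG hg hv hc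
      obtain ⟨L, hL, hLh⟩ := other_L (D := D) (h := h)
      have hLW : L ∈ D.W := L_mem_W hL
      refine ⟨L.image g, legal_card hg (D.W_sub hLW), ?_, hv L (D.W_sub hLW), Or.inl ?_⟩
      · rw [mem_insert]
        rintro (h4 | h4)
        · rw [hhe] at h4
          exact hLh (im_inj hg h4)
        · exact h3 _ h4 (mem_image_of_mem g (D.w_mem_of_W hLW))
      · refine ⟨φ, hφ, fun e he => mem_insert_of_mem (hC e he), g0, hg0, hz,
          fun e he => mem_insert_of_mem (hg0C e he), ?_⟩
        intro x hxG
        rcases mem_insert.mp hxG with rfl | hxG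
        · right
          refine ⟨g, hg, h1, ⟨h, hh, hhe⟩, L_mem_insert hL, ?_⟩
          intro y hy hwy
          rcases mem_insert.mp hy with h4 | h4
          · exact h4
          · exact absurd hwy (h3 y h4)
        · rcases hx x hxG with h5 | ⟨gx, hgx, hgxC, ⟨ex, hex, hxe⟩, hSx, huniq⟩
          · exact Or.inl h5
          · right
            refine ⟨gx, hgx, hgxC, ⟨ex, hex, hxe⟩, ?_, ?_⟩
            · rcases hSx with h6 | h6
              · exact Or.inl (mem_insert_of_mem h6)
              · exact Or.inr (mem_insert_of_mem h6)
            · intro y hy hwy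
              rcases mem_insert.mp hy with h4 | h4
              · exfalso
                rw [h4, hhe] at hwy
                obtain ⟨a, ha, hga⟩ := mem_image.mp hwy
                have hK : N ≤ (D.K gx g).card := by
                  have : D.C ⊆ D.K gx g := by
                    intro f hf
                    exact D.mem_K.mpr ⟨D.C_sub hf, by rw [h1 f hf, hgxC f hf]⟩
                  have := card_le_card this
                  rw [D.cardC] at this
                  exact this
                have haw := D.V3 hgx hg hK hga.symm
                rw [haw] at hga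
                apply h3 x hxG
                rw [hga, hxe]
                exact mem_image_of_mem gx (D.w_mem_of_W hex)
              · exact huniq y h4 hwy

/-- state III (attack running) -/
lemma stepP3 (h : D.P3 G S) {e : Finset ℕ} (hdis : Disjoint (insert e G) S) :
    ¬ D.HasCopy (insert e G) ∧
    ∃ y : Finset ℕ, y.card = k ∧ y ∉ insert e G ∧ y ∉ S ∧
      (D.P3 (insert e G) (insert y S) ∨ D.P4 (insert e G) (insert y S)) := by
  obtain ⟨φ, hφ, hC, L, L', hL, hLS, hwG, hwS, hNT, hCS⟩ := h
  have hN := D.hN
  have hd := D.hd
  have hL' : L' = D.L1 ∨ L' = D.L2 := by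
    rcases hL with ⟨_, h⟩ | ⟨_, h⟩
    · exact Or.inr h
    · exact Or.inl h
  have hL0 : L = D.L1 ∨ L = D.L2 := by
    rcases hL with ⟨h, _⟩ | ⟨h, _⟩
    · exact Or.inl h
    · exact Or.inr h
  have hLL : L ≠ L' := by
    rcases hL with ⟨rfl, rfl⟩ | ⟨rfl, rfl⟩
    · exact D.L12
    · exact D.L12.symm
  have hL'W := L_mem_W hL'
  have hLW := L_mem_W hL0
  have hw' : φ D.w ∈ L'.image φ := mem_image_of_mem φ (D.w_mem_of_W hL'W)
  constructor
  · exact (hNT.insert e).noCopy hdis (by omega)
  · by_cases heq : e = L'.image φ
    · -- the opponent replied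
      have hdeg : ((insert e G).filter (fun y => φ D.w ∈ y)).card ≤ 1 := by
        have : (insert e G).filter (fun y => φ D.w ∈ y) ⊆ {e} := by
          intro y hy
          rw [mem_filter, mem_insert] at hy
          rw [mem_singleton]
          rcases hy.1 with h | h
          · exact h
          · exact absurd hy.2 (hwG y h)
        exact (card_le_card this).trans (by simp)
      have hNT' : D.NoThr (insert e G) S N := by
        intro g hg hv
        by_contra hcon
        push Not at hcon
        have hcG := hNT g hg hv
        -- an edge of `g` equals `e`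
        have hex : ∃ h ∈ D.H, h.image g = e := by
          by_contra hno
          push Not at hno
          have : D.cnt (insert e G) g ≤ D.cnt G g := by
            apply card_le_card
            intro h hh
            rw [mem_filter, mem_insert] at hh
            exact mem_filter.mpr ⟨hh.1, hh.2.resolve_left (hno h hh.1)⟩
          omega
        obtain ⟨h, hh, hhe⟩ := hex
        have h1 : φ D.w ∈ h.image g := by rw [hhe, heq]; exact hw'
        obtain ⟨a, ha, hga⟩ := mem_image.mp h1
        have haw : a = D.w := by
          by_contra haw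
          have := D.LD hg hcon haw
          rw [hga] at this
          omega
        rw [haw] at ha hga
        have hhW := D.mem_W_of_w_mem hh ha
        have hsub : D.H.filter (fun h => h.image g ∈ insert e G) ⊆
            insert h (D.C.filter (fun f => f.image g ∈ G)) := by
          intro h' hh'
          rw [mem_filter, mem_insert] at hh'
          rw [mem_insert, mem_filter]
          rcases hh'.2 with h2 | h2
          · exact Or.inl (im_inj hg (h2.trans hhe.symm))
          · right
            rcases D.mem_H.mp hh'.1 with h3 | h3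
            · exact ⟨h3, h2⟩
            · exfalso
              apply hwG _ h2
              rw [← hga]
              exact mem_image_of_mem g (D.w_mem_of_W h3)
        have hcc : N ≤ (D.C.filter (fun f => f.image g ∈ G)).card := by
          have h2 := (card_le_card hsub).trans (card_insert_le _ _)
          have h3 : N + 1 ≤ (D.H.filter (fun h => h.image g ∈ insert e G)).card := hcon
          omega
        have hCeq : D.C.filter (fun f => f.image g ∈ G) = D.C := by
          apply Finset.eq_of_subset_of_card_le (filter_subset _ _)
          rw [D.cardC]; exact hcc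
        have hCg : ∀ f ∈ D.C, f.image g ∈ G := by
          intro f hf
          rw [← hCeq, mem_filter] at hf
          exact hf.2
        have herase : ∀ (g : V → ℕ), Function.Injective g → ∀ f : Finset V,
            (f.erase D.w).image g = (f.image g).erase (g D.w) := by
          intro g hg f
          exact Finset.image_erase hg f D.w
        have hlink : (h.erase D.w).image g = (L'.erase D.w).image φ := by
          rw [herase g hg, herase φ hφ, hhe, hga, heq]
        obtain ⟨f', hf', hf'e⟩ := hCS g hg hCg ⟨h, hhW, hlink⟩
        apply hv f' (D.W_sub hf')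
        have : f'.image g = L.image φ := by
          rw [← insert_erase (D.w_mem_of_W hf'), ← insert_erase (D.w_mem_of_W hLW),
            image_insert, image_insert, hf'e, hga]
        rw [this]
        exact hLS
      have hCS' : D.CoinSafe φ L L' (insert e G) := by
        intro g hg hgC hf
        apply hCS g hg _ hf
        intro f hfC
        rcases mem_insert.mp (hgC f hfC) with h2 | h2
        · exfalso
          have h1 : φ D.w ∈ f.image g := by rw [h2, heq]; exact hw'
          obtain ⟨a, ha, hga⟩ := mem_image.mp h1
          have haw : a ≠ D.w := by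
            rintro rfl
            exact D.wC f hfC ha
          have h6 := D.LD' hg hgC haw
          rw [hga] at h6
          omega
        · exact h2
      obtain ⟨y, h1, h2, h3, h4⟩ := attack hφ hC hL hNT' hCS'
      exact ⟨y, h1, h2, h3, Or.inl h4⟩
    · -- no reply: take the partner
      refine ⟨L'.image φ, legal_card hφ (D.W_sub hL'W), ?_, ?_, Or.inr ?_⟩
      · rw [mem_insert]
        rintro (h | h)
        · exact heq h.symm
        · exact hwG _ h hw'
      · intro h
        exact hLL (im_inj hφ (hwS _ h hw')).symm
      · refine ⟨φ, hφ, fun e he => mem_insert_of_mem (hC e he), ?_, ?_, ∅, empty_subset _, ?_,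
          ?_, ?_, ?_, ?_⟩
        · rcases hL with ⟨h1, h2⟩ | ⟨h1, h2⟩
          · rw [← h1]; exact mem_insert_of_mem hLS
          · rw [← h2]; exact mem_insert_self _ _
        · rcases hL with ⟨h1, h2⟩ | ⟨h1, h2⟩
          · rw [← h2]; exact mem_insert_self _ _
          · rw [← h1]; exact mem_insert_of_mem hLS
        · simpa using hd
        · simp
        · have := (hNT.insert e).mono_S (subset_insert (L'.image φ) S)
          simpa using this
        · have : (insert e G).filter (fun y => φ D.w ∈ y) ⊆ {e} := by
            intro y hy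
            rw [mem_filter, mem_insert] at hy
            rw [mem_singleton]
            rcases hy.1 with h | h
            · exact h
            · exact absurd hy.2 (hwG y h)
          exact (card_le_card this).trans (by simp)
        · have : (insert (L'.image φ) S).filter (fun y => φ D.w ∈ y) ⊆
              {L'.image φ, L.image φ} := by
            intro y hy
            rw [mem_filter, mem_insert] at hy
            rw [mem_insert, mem_singleton]
            rcases hy.1 with h | h
            · exact Or.inl h
            · exact Or.inr (hwS y h hy.2)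
          exact (card_le_card this).trans card_le_two

/-- state IV (finishing) -/
lemma stepP4 (h : D.P4 G S) {e : Finset ℕ} (hdis : Disjoint (insert e G) S) :
    ¬ D.HasCopy (insert e G) ∧
    ∃ y : Finset ℕ, y.card = k ∧ y ∉ insert e G ∧ y ∉ S ∧
      (D.HasCopy (insert y S) ∨ D.P4 (insert e G) (insert y S)) := by
  obtain ⟨φ, hφ, hC, hL1, hL2, J, hJ, hJc, hJS, hNT, hdG, hdS⟩ := h
  have hN := D.hN
  have hd := D.hd
  have hρ := D.hρ
  have hFl := D.cardFl
  constructor
  · exact (hNT.insert e).noCopy hdis (by omega)
  · obtain ⟨F, hF, hFJ⟩ : ∃ F ∈ D.Fl, F ∉ J := by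
      apply Finset.exists_mem_notMem_of_card_lt_card
      omega
    obtain ⟨b, hb, hbw, R, hR, hRa⟩ := D.swapF F hF
    set X := ((insert e G) ∪ S).filter (fun y => φ D.w ∈ y) with hX
    have hXG : ((insert e G).filter (fun y => φ D.w ∈ y)).card ≤ J.card + 2 := by
      have : (insert e G).filter (fun y => φ D.w ∈ y) ⊆
          insert e (G.filter (fun y => φ D.w ∈ y)) := by
        intro y hy
        rw [mem_filter, mem_insert] at hy
        rw [mem_insert, mem_filter]
        rcases hy.1 with h | h
        · exact Or.inl h
        · exact Or.inr ⟨h, hy.2⟩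
      have := (card_le_card this).trans (card_insert_le _ _)
      omega
    have hXc : X.card ≤ 2 * J.card + 4 := by
      rw [hX, filter_union]
      have := card_union_le ((insert e G).filter (fun y => φ D.w ∈ y))
        (S.filter (fun y => φ D.w ∈ y))
      omega
    obtain ⟨a, haR, ha⟩ := exists_swap hφ hb (fun a ha => (hRa a ha).1) (X := X) (by omega)
    obtain ⟨haF, haf⟩ := hRa a haR
    have hwF : D.w ∈ F := D.wFl F hF
    have haw : a ≠ D.w := fun h => haF (h ▸ hwF)
    set ψ := φ ∘ Equiv.swap a b with hψ
    have hψi : Function.Injective ψ := hφ.comp (Equiv.injective _)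
    have hψw : ψ D.w = φ D.w := by
      rw [hψ, Function.comp_apply, Equiv.swap_apply_of_ne_of_ne haw.symm hbw.symm]
    have him : ∀ f ∈ D.H, f ≠ F → f.image ψ = f.image φ := by
      intro f hf hfF
      exact swap_same (haf f hf hfF)
    have hxF : φ D.w ∈ F.image ψ := by
      rw [← hψw]; exact mem_image_of_mem ψ hwF
    have hFH : F ∈ D.H := D.W_sub (D.Fl_sub_W hF)
    have hnotG : F.image ψ ∉ insert e G := by
      intro h
      exact ha (mem_filter.mpr ⟨mem_union_left _ h, hxF⟩)
    have hnotS : F.image ψ ∉ S := by
      intro h
      exact ha (mem_filter.mpr ⟨mem_union_right _ h, hxF⟩)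
    refine ⟨F.image ψ, legal_card hψi hFH, hnotG, hnotS, ?_⟩
    have hC' : ∀ f ∈ D.C, f.image ψ ∈ insert (F.image ψ) S := by
      intro f hf
      rw [him f (D.C_sub hf) (fun h => D.wC f hf (h ▸ hwF))]
      exact mem_insert_of_mem (hC f hf)
    have hL1' : D.L1.image ψ ∈ insert (F.image ψ) S := by
      rw [him D.L1 D.L1_mem_H (fun h => D.L1Fl (h ▸ hF))]
      exact mem_insert_of_mem hL1
    have hL2' : D.L2.image ψ ∈ insert (F.image ψ) S := by
      rw [him D.L2 D.L2_mem_H (fun h => D.L2Fl (h ▸ hF))]
      exact mem_insert_of_mem hL2
    have hJ' : ∀ f ∈ insert F J, f.image ψ ∈ insert (F.image ψ) S := by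
      intro f hf
      rcases mem_insert.mp hf with rfl | hf
      · exact mem_insert_self _ _
      · rw [him f (D.W_sub (D.Fl_sub_W (hJ hf))) (fun h => hFJ (h ▸ hf))]
        exact mem_insert_of_mem (hJS f hf)
    have hJc' : (insert F J).card = J.card + 1 := card_insert_of_notMem hFJ
    by_cases hlast : J.card + 1 + 3 ≤ d
    · right
      refine ⟨ψ, hψi, hC', hL1', hL2', insert F J, insert_subset hF hJ, by omega, hJ', ?_, ?_, ?_⟩
      · rw [hJc']
        have := (hNT.insert e).mono_S (subset_insert (F.image ψ) S)
        exact this
      · rw [hψw, hJc']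
        omega
      · rw [hψw, hJc']
        have : (insert (F.image ψ) S).filter (fun y => φ D.w ∈ y) ⊆
            insert (F.image ψ) (S.filter (fun y => φ D.w ∈ y)) := by
          intro y hy
          rw [mem_filter, mem_insert] at hy
          rw [mem_insert, mem_filter]
          rcases hy.1 with h | h
          · exact Or.inl h
          · exact Or.inr ⟨h, hy.2⟩
        have := (card_le_card this).trans (card_insert_le _ _)
        omega
    · left
      have hJall : insert F J = D.Fl := by
        apply Finset.eq_of_subset_of_card_le (insert_subset hF hJ)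
        omega
      refine ⟨ψ, hψi, ?_⟩
      intro f hf
      rcases D.mem_H.mp hf with h | h
      · exact hC' f h
      · rcases D.mem_W.mp h with rfl | rfl | h
        · exact hL1'
        · exact hL2'
        · rw [← hJall] at h
          exact hJ' f h

end Design

end Pool.Agent.Lib.MP_9571c3_co
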