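import Mathlib
import Pool.Agent.Lib.MP_9571c3_co.Steps2

set_option autoImplicit false
set_option linter.unusedSectionVars false

namespace Pool.Agent.Lib.MP_9571c3_co

open Finset

variable {V : Type} [Fintype V] [DecidableEq V] {d k N ρ : ℕ}

namespace Design

variable {D : Design V d k N ρ} {G S : Finset (Finset ℕ)}

lemma stepP1 (h : D.P1 G S) {e : Finset ℕ} (heG : e ∉ G) :
    ¬ D.HasCopy (insert e G) ∧
    ∃ y : Finset ℕ, y.card = k ∧ y ∉ insert e G ∧ y ∉ S ∧
      (D.P1 (insert e G) (insert y S) ∨ D.PI (insert e G) (insert y S) ∨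
        D.PII (insert e G) (insert y S) ∨ D.P3 (insert e G) (insert y S)) := by
  obtain ⟨φ, hφ, e0, he0, hfar, P, hP, hPS, hPG, hSc⟩ := h
  have hN := D.hN
  have hd := D.hd
  have hρ := D.hρ
  have hPc : P.card ≤ N := by
    rw [← D.cardC]; exact card_le_card hP
  have hGc : (insert e G).card = P.card + 1 := by
    rw [card_insert_of_notMem heG, hPG]
  constructor
  · apply noCopy_of_card; omega
  · by_cases hlt : P.card < N
    · have hc : ((insert e G) ∪ S).card < ρ := by
        have := card_union_le (insert e G) S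
        omega
      obtain ⟨φ', hφ', hfar', e1, he1, he1P, hPS', hnG, hnS⟩ :=
        build (D := D) hφ hfar hP hPS hlt hc
      refine ⟨e1.image φ', legal_card hφ' (D.C_sub he1), hnG, hnS, Or.inl ?_⟩
      refine ⟨φ', hφ', e0, mem_insert_of_mem he0, hfar', insert e1 P,
        insert_subset he1 hP, ?_, ?_, ?_⟩
      · intro f hf
        rcases mem_insert.mp hf with rfl | hf
        · exact mem_insert_self _ _
        · exact mem_insert_of_mem (hPS' f hf)
      · rw [card_insert_of_notMem he1P, hGc]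
      · rw [card_insert_of_notMem he1P, card_insert_of_notMem hnS]
        omega
    · have hPeq : P = D.C := by
        apply Finset.eq_of_subset_of_card_le hP
        rw [D.cardC]; omega
      have hC : ∀ f ∈ D.C, f.image φ ∈ S := by
        intro f hf
        exact hPS f (hPeq ▸ hf)
      have hGc' : (insert e G).card = N + 1 := by omega
      by_cases hNT : D.NoThr (insert e G) S N
      · rcases entry_calm (D := D) hφ (mem_insert_of_mem he0) hfar hGc' with hCS | hCS
        · obtain ⟨y, h1, h2, h3, h4⟩ := attack hφ hC (Or.inl ⟨rfl, rfl⟩) hNT hCS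
          exact ⟨y, h1, h2, h3, Or.inr (Or.inr (Or.inr h4))⟩
        · obtain ⟨y, h1, h2, h3, h4⟩ := attack hφ hC (Or.inr ⟨rfl, rfl⟩) hNT hCS
          exact ⟨y, h1, h2, h3, Or.inr (Or.inr (Or.inr h4))⟩
      · unfold NoThr at hNT
        push Not at hNT
        obtain ⟨g, hg, hv, hc⟩ := hNT
        obtain ⟨y, h1, h2, h3, h4⟩ :=
          entry_threat hφ (mem_insert_of_mem he0) hfar hC hGc' hg hv hc
        refine ⟨y, h1, h2, h3, ?_⟩
        rcases h4 with h4 | h4
        · exact Or.inr (Or.inl h4)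
        · exact Or.inr (Or.inr (Or.inl h4))

lemma exists_far (e : Finset ℕ) : ∃ φ : V → ℕ, Function.Injective φ ∧ ∀ v, φ v ∉ e := by
  refine ⟨fun v => e.sup id + 1 + ((Fintype.equivFin V) v).val, ?_, ?_⟩
  · intro u v huv
    simp only [Nat.add_left_cancel_iff] at huv
    exact (Fintype.equivFin V).injective (Fin.ext huv)
  · intro v hv
    have : e.sup id + 1 + ((Fintype.equivFin V) v).val ≤ e.sup id :=
      Finset.le_sup (f := id) hv
    omega

lemma stepP0 (h : P0 G S) (e : Finset ℕ) :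
    ¬ D.HasCopy (insert e G) ∧
    ∃ y : Finset ℕ, y.card = k ∧ y ∉ insert e G ∧ y ∉ S ∧ D.P1 (insert e G) (insert y S) := by
  obtain ⟨rfl, hSc⟩ := h
  have hN := D.hN
  have hd := D.hd
  have hρ := D.hρ
  have h1 : (insert e (∅ : Finset (Finset ℕ))).card = 1 := by simp
  constructor
  · apply noCopy_of_card; omega
  · obtain ⟨φ, hφ, hfar⟩ := exists_far (V := V) e
    obtain ⟨φ', hφ', hfar', e1, he1, he1P, hPS', hnG, hnS⟩ :=
      build (D := D) (G := insert e ∅) (S := S) hφ hfar (P := ∅) (empty_subset _)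
        (by simp) (by simp; omega) (by
          have := card_union_le (insert e (∅ : Finset (Finset ℕ))) S
          omega)
    refine ⟨e1.image φ', legal_card hφ' (D.C_sub he1), hnG, hnS, φ', hφ', e,
      mem_insert_self _ _, hfar', {e1}, by simpa using he1, ?_, by simp, ?_⟩
    · intro f hf
      rw [mem_singleton] at hf
      rw [hf]; exact mem_insert_self _ _
    · rw [card_insert_of_notMem hnS, card_singleton]
      omega

/-- The invariant is preserved: for every legal move of the opponent there is a reply. -/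
theorem step (hI : D.Inv G S) {e : Finset ℕ} (heG : e ∉ G) (heS : e ∉ S) :
    ¬ D.HasCopy (insert e G) ∧
    ∃ y : Finset ℕ, y.card = k ∧ y ∉ insert e G ∧ y ∉ S ∧
      (D.HasCopy (insert y S) ∨ D.Inv (insert e G) (insert y S)) := by
  obtain ⟨hdis, hI⟩ := hI
  have hdis' : Disjoint (insert e G) S := by
    rw [disjoint_insert_left]
    exact ⟨heS, hdis⟩
  have hd2 : ∀ y : Finset ℕ, y ∉ insert e G → Disjoint (insert e G) (insert y S) := by
    intro y hy
    rw [disjoint_insert_right]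
    exact ⟨hy, hdis'⟩
  rcases hI with h | h | h | h | h | h
  · obtain ⟨h1, y, h2, h3, h4, h5⟩ := stepP0 (D := D) h e
    exact ⟨h1, y, h2, h3, h4, Or.inr ⟨hd2 y h3, Or.inr (Or.inl h5)⟩⟩
  · obtain ⟨h1, y, h2, h3, h4, h5⟩ := stepP1 h heG
    refine ⟨h1, y, h2, h3, h4, Or.inr ⟨hd2 y h3, ?_⟩⟩
    rcases h5 with h5 | h5 | h5 | h5
    · exact Or.inr (Or.inl h5)
    · exact Or.inr (Or.inr (Or.inl h5))
    · exact Or.inr (Or.inr (Or.inr (Or.inl h5)))
    · exact Or.inr (Or.inr (Or.inr (Or.inr (Or.inl h5))))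
  · obtain ⟨h1, φ, hφ, hC, hCS⟩ := stepPI h e
    have hN := D.hN
    have hd := D.hd
    refine ⟨h1.noCopy hdis' (by omega), ?_⟩
    obtain ⟨y, h2, h3, h4, h5⟩ := attack hφ hC (Or.inl ⟨rfl, rfl⟩) h1 hCS
    exact ⟨y, h2, h3, h4, Or.inr ⟨hd2 y h3, Or.inr (Or.inr (Or.inr (Or.inr (Or.inl h5))))⟩⟩
  · obtain ⟨h1, y, h2, h3, h4, h5⟩ := stepPII h heG hdis'
    refine ⟨h1, y, h2, h3, h4, Or.inr ⟨hd2 y h3, ?_⟩⟩
    rcases h5 with h5 | h5
    · exact Or.inr (Or.inr (Or.inr (Or.inl h5)))
    · exact Or.inr (Or.inr (Or.inr (Or.inr (Or.inl h5))))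
  · obtain ⟨h1, y, h2, h3, h4, h5⟩ := stepP3 h hdis'
    refine ⟨h1, y, h2, h3, h4, Or.inr ⟨hd2 y h3, ?_⟩⟩
    rcases h5 with h5 | h5
    · exact Or.inr (Or.inr (Or.inr (Or.inr (Or.inl h5))))
    · exact Or.inr (Or.inr (Or.inr (Or.inr (Or.inr h5))))
  · obtain ⟨h1, y, h2, h3, h4, h5⟩ := stepP4 h hdis'
    refine ⟨h1, y, h2, h3, h4, ?_⟩
    rcases h5 with h5 | h5
    · exact Or.inl h5
    · exact Or.inr ⟨hd2 y h3, Or.inr (Or.inr (Or.inr (Or.inr (Or.inr h5))))⟩

end Design

end Pool.Agent.Lib.MP_9571c3_co
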