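import Mathlib
import Pool.Agent.Lib.MP_9571c3_co.Steps3
import Pool.Agent.Lib.MP_9571c3_co.Game
import Pool.Agent.Lib.MP_9571c3_co.Construct3

set_option autoImplicit false
set_option linter.unusedSectionVars false

/-!
# MP_9571c3_co: drawn strong Ramsey games for hypergraphs of large minimum degree

## Outline of the proof

*The hypergraph.* Let `F` be a finite field with at least `d + 5` elements. The hypergraph `H`
has `N = |F|²` core edges, one for each point `S` of the affine plane `F × F`, and `d` edges
containing one more vertex `w` of degree `d`. Apart from `w`, a universal vertex `z` and a pair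
`y₀, y₁`, the vertices come in pairs `(c, 0), (c, 1)` and every edge contains exactly one vertex
of each pair; so an edge is a 0/1 word. The coordinates `c` are grouped in classes: for every
point `S` two classes `A_S`, `B_S` on which the core edge `S'` takes the value
`[S' ∈ line S]`, except that core edge `S` is `0` on `A_S` and `1` on `B_S`; all edges at `w` are
`0` on `A_S` and `1` on `B_S`; moreover classes `T`, `X_0, …, X_{d-1}` with rows given by vertical
lines, on which the `i`-th edge at `w` is the indicator of `X_i`. The classes have sizes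
`M * 4 ^ i` with distinct `i`, so that the sizes of the pairwise intersections of edges are
pairwise distinct (roles can be read off), any two vertices separated by a core edge or by one
of the two invariant edges `L1` (`i = 0`), `L2` (`i = d - 1`) are separated by at least `d + 1`
edges, every core edge can be varied in many ways without changing the other core edges, and each
of the `d - 2` other (flexible) edges at `w` can be varied without changing any other edge.

*The drawing strategy.* The drawer first builds a core copy far from the first edge of the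
opponent (`N` moves, which cannot be blocked). When the opponent has `N + 1` edges: if some copy
of `H` containing no edge of the drawer has `N + 1` edges claimed by the opponent, then the drawer
kills all such copies with one move (a missing core edge or an invariant edge), and this can be
repeated as long as the opponent keeps threatening. Otherwise the drawer attacks at a fresh vertex
`x`, by claiming `L1` (or `L2`) with `w` placed at `x`; the opponent must answer with the other
invariant edge at `x`, since otherwise the drawer takes it and then completes the flexible edges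
before the opponent can complete a copy. The answer creates no threat, so the drawer attacks again
at another fresh vertex, and so on for ever.
-/

namespace Pool.Agent.Lib.MP_9571c3_co

open Finset

variable {V : Type} [Fintype V] [DecidableEq V] {d k N ρ : ℕ}

theorem draw_of_design (D : Design V d k N ρ) :
    ∃ (k n : ℕ) (H : Finset (Finset (Fin n))), 0 < n ∧
    (∀ e ∈ H, e.card = k) ∧
    (∀ v : Fin n, d ≤ (H.filter (fun e => v ∈ e)).card) ∧
    (¬ ∃ s : List (Finset ℕ) → Finset ℕ, ∀ m : ℕ → Finset ℕ,
        (∀ i : ℕ, Even i → m i = s (List.ofFn (fun j : Fin i => m j))) →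
        (∀ i : ℕ, Odd i → (m i).card = k ∧ ∀ j < i, m j ≠ m i) →
        ∃ N : ℕ, Even N ∧
          (∀ i ≤ N, Even i → (m i).card = k ∧ ∀ j < i, m j ≠ m i) ∧
          (∃ f : Fin n → ℕ, Function.Injective f ∧
              ∀ e ∈ H, ∃ i ≤ N, Even i ∧ m i = e.image f) ∧
          ¬ (∃ f : Fin n → ℕ, Function.Injective f ∧
              ∀ e ∈ H, ∃ i < N, Odd i ∧ m i = e.image f)) ∧
    (¬ ∃ t : List (Finset ℕ) → Finset ℕ, ∀ m : ℕ → Finset ℕ,
        (∀ i : ℕ, Odd i → m i = t (List.ofFn (fun j : Fin i => m j))) →
        (∀ i : ℕ, Even i → (m i).card = k ∧ ∀ j < i, m j ≠ m i) →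
        ∃ N : ℕ, Odd N ∧
          (∀ i ≤ N, Odd i → (m i).card = k ∧ ∀ j < i, m j ≠ m i) ∧
          (∃ f : Fin n → ℕ, Function.Injective f ∧
              ∀ e ∈ H, ∃ i ≤ N, Odd i ∧ m i = e.image f) ∧
          ¬ (∃ f : Fin n → ℕ, Function.Injective f ∧
              ∀ e ∈ H, ∃ i < N, Even i ∧ m i = e.image f)) := by
  set ε := Fintype.equivFin V with hε
  set H' : Finset (Finset (Fin (Fintype.card V))) := D.H.image (fun e => e.image ε) with hH'
  have hinj : Function.Injective (fun e : Finset V => e.image ε) :=
    Finset.image_injective ε.injective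
  have hk : 0 < k := by
    rw [← D.card_edge D.L1_mem_H]
    exact card_pos.mpr ⟨D.w, D.wL1⟩
  -- copies
  have hcopy : ∀ X : Finset (Finset ℕ),
      (∃ f : Fin (Fintype.card V) → ℕ, Function.Injective f ∧ ∀ a ∈ H', a.image f ∈ X) ↔
      D.HasCopy X := by
    intro X
    constructor
    · rintro ⟨f, hf, h⟩
      refine ⟨f ∘ ε, hf.comp ε.injective, ?_⟩
      intro e he
      have := h (e.image ε) (mem_image_of_mem _ he)
      rwa [Finset.image_image] at this
    · rintro ⟨g, hg, h⟩
      refine ⟨g ∘ ε.symm, hg.comp ε.symm.injective, ?_⟩
      intro a ha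
      obtain ⟨e, he, rfl⟩ := mem_image.mp ha
      rw [Finset.image_image]
      have : (g ∘ ε.symm) ∘ ε = g := by
        funext v
        simp
      rw [this]
      exact h e he
  refine ⟨k, Fintype.card V, H', Fintype.card_pos_iff.mpr ⟨D.w⟩, ?_, ?_, ?_⟩
  · intro e he
    obtain ⟨e', he', rfl⟩ := mem_image.mp he
    rw [card_image_of_injective _ ε.injective, D.card_edge he']
  · intro v
    have h1 : H'.filter (fun e => v ∈ e) =
        (D.H.filter (fun e => ε.symm v ∈ e)).image (fun e => e.image ε) := by
      ext x
      simp only [hH', mem_filter, mem_image]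
      constructor
      · rintro ⟨⟨e, he, rfl⟩, hv⟩
        obtain ⟨u, hu, huv⟩ := mem_image.mp hv
        refine ⟨e, ⟨he, ?_⟩, rfl⟩
        rw [← huv]
        simpa using hu
      · rintro ⟨e, ⟨he, hv⟩, rfl⟩
        exact ⟨⟨e, he, rfl⟩, mem_image.mpr ⟨ε.symm v, hv, by simp⟩⟩
    rw [h1, card_image_of_injective _ hinj]
    by_cases hv : ε.symm v = D.w
    · rw [hv]
      calc d = D.W.card := D.cardW.symm
        _ ≤ _ := by
          apply card_le_card
          intro e he
          exact mem_filter.mpr ⟨D.W_sub he, D.w_mem_of_W he⟩
    · have h2 := D.deg (ε.symm v) hv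
      have h3 : (D.C.filter (fun e => ε.symm v ∈ e)).card ≤
          (D.H.filter (fun e => ε.symm v ∈ e)).card :=
        card_le_card (filter_subset_filter _ D.C_sub)
      omega
  · apply draw_of_inv H' hk D.Inv
    · intro G S hI e heG heS
      rw [hcopy]
      obtain ⟨h1, y, h2, h3, h4, h5⟩ := Design.step hI heG heS
      refine ⟨h1, y, h2, h3, h4, ?_⟩
      rw [hcopy]
      exact h5
    · exact ⟨disjoint_empty_left _, Or.inl ⟨rfl, by simp⟩⟩
    · intro x
      exact ⟨disjoint_empty_left _, Or.inl ⟨rfl, by simp⟩⟩

/-- There is a design for every `d ≥ 3`. -/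
theorem exists_design (d : ℕ) (hd : 3 ≤ d) :
    ∃ (V : Type) (_ : Fintype V) (_ : DecidableEq V) (k N ρ : ℕ), Nonempty (Design V d k N ρ) := by
  obtain ⟨p, hp, hprime⟩ := Nat.exists_infinite_primes (d + 5)
  haveI : Fact p.Prime := ⟨hprime⟩
  have hcard : Fintype.card (ZMod p) = p := ZMod.card p
  have h4 : Fintype.card (Fin 4) ≤ Fintype.card (ZMod p) := by
    rw [hcard, Fintype.card_fin]; omega
  obtain ⟨q⟩ := Function.Embedding.nonempty_of_card_le h4
  exact ⟨_, _, _, _, _, _, ⟨Cons.design (d := d) (M := 2 * Fintype.card (ZMod p × ZMod p) + 2 * d + 10)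
    q q.injective hd (by rw [hcard]; exact hp) rfl⟩⟩

end Pool.Agent.Lib.MP_9571c3_co
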