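import Mathlib
import Pool.Agent.Lib.MP_9571c3_co.Final

set_option autoImplicit false

namespace Pool.Agent.Lib.MP_9571c3_co

open Finset

/-- From an invariant preserved by suitable replies to a strategy which never loses. The opponent
moves at the indices satisfying `p`. -/
theorem exists_nonlosing {k : ℕ} (hk : 0 < k) (HC : Finset (Finset ℕ) → Prop)
    (hmono : ∀ X Y : Finset (Finset ℕ), X ⊆ Y → HC X → HC Y)
    (Inv : Finset (Finset ℕ) → Finset (Finset ℕ) → Prop)
    (hstep : ∀ G S : Finset (Finset ℕ), Inv G S → ∀ e : Finset ℕ, e ∉ G → e ∉ S →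
      ¬ HC (insert e G) ∧ ∃ y : Finset ℕ, y.card = k ∧ y ∉ insert e G ∧ y ∉ S ∧
        (HC (insert y S) ∨ Inv (insert e G) (insert y S)))
    (p : ℕ → Prop) [DecidablePred p] (hp : ∀ i, p (i + 1) ↔ ¬ p i) (i0 : ℕ) (hi0 : p i0)
    (hbase : ∀ m : ℕ → Finset ℕ, Inv (sel p m i0) (sel (fun i => ¬ p i) m i0)) :
    ∃ σ : List (Finset ℕ) → Finset ℕ, ∀ m : ℕ → Finset ℕ,
      (∀ i : ℕ, ¬ p i → m i = σ (List.ofFn (fun j : Fin i => m j))) →
      (∀ i : ℕ, p i → (m i).card = k ∧ ∀ j < i, m j ≠ m i) →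
      (∀ i : ℕ, ¬ p i → (m i).card = k ∧ ∀ j < i, m j ≠ m i) ∧
      ∀ N : ℕ, i0 ≤ N → p N → HC (sel p m (N + 1)) → HC (sel (fun i => ¬ p i) m N) := by
  classical
  let lG : List (Finset ℕ) → Finset (Finset ℕ) := fun h =>
    ((range h.length).filter p).image (fun j => h.getD j ∅)
  let lS : List (Finset ℕ) → Finset (Finset ℕ) := fun h =>
    ((range h.length).filter (fun i => ¬ p i)).image (fun j => h.getD j ∅)
  have hex : ∀ h : List (Finset ℕ), ∃ y : Finset ℕ, y.card = k ∧ y ∉ lG h ∪ lS h ∧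
      ((∃ y' : Finset ℕ, y'.card = k ∧ y' ∉ lG h ∪ lS h ∧
        (HC (insert y' (lS h)) ∨ Inv (lG h) (insert y' (lS h)))) →
        (HC (insert y (lS h)) ∨ Inv (lG h) (insert y (lS h)))) := by
    intro h
    by_cases hc : ∃ y' : Finset ℕ, y'.card = k ∧ y' ∉ lG h ∪ lS h ∧
        (HC (insert y' (lS h)) ∨ Inv (lG h) (insert y' (lS h)))
    · obtain ⟨y', h1, h2, h3⟩ := hc
      exact ⟨y', h1, h2, fun _ => h3⟩
    · obtain ⟨y, h1, h2⟩ := exists_legal hk (lG h ∪ lS h)
      exact ⟨y, h1, h2, fun h => absurd h hc⟩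
  choose resp hresp using hex
  refine ⟨resp, ?_⟩
  intro m hmn hlp
  have hget : ∀ i j : ℕ, j < i → (List.ofFn (fun j : Fin i => m j)).getD j ∅ = m j := by
    intro i j hj
    rw [List.getD_eq_getElem _ _ (by simpa using hj)]
    simp
  have hlG : ∀ i : ℕ, lG (List.ofFn (fun j : Fin i => m j)) = sel p m i := by
    intro i
    simp only [lG, sel, List.length_ofFn]
    apply image_congr
    intro j hj
    simp only [coe_filter, mem_range, Set.mem_ofPred_eq] at hj
    exact hget i j hj.1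
  have hlS : ∀ i : ℕ, lS (List.ofFn (fun j : Fin i => m j)) = sel (fun i => ¬ p i) m i := by
    intro i
    simp only [lS, sel, List.length_ofFn]
    apply image_congr
    intro j hj
    simp only [coe_filter, mem_range, Set.mem_ofPred_eq] at hj
    exact hget i j hj.1
  have hall : ∀ i j : ℕ, j < i → m j ∈ sel p m i ∪ sel (fun i => ¬ p i) m i := by
    intro i j hj
    rw [mem_union]
    by_cases h : p j
    · exact Or.inl (mem_sel.mpr ⟨j, hj, h, rfl⟩)
    · exact Or.inr (mem_sel.mpr ⟨j, hj, h, rfl⟩)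
  have hlegal : ∀ i : ℕ, ¬ p i → (m i).card = k ∧ ∀ j < i, m j ≠ m i := by
    intro i hi
    obtain ⟨h1, h2, _⟩ := hresp (List.ofFn (fun j : Fin i => m j))
    rw [← hmn i hi, hlG, hlS] at h2
    rw [← hmn i hi] at h1
    exact ⟨h1, fun j hj h => h2 (h ▸ hall i j hj)⟩
  refine ⟨hlegal, ?_⟩
  have claim : ∀ t : ℕ, p (i0 + 2 * t) ∧
      (HC (sel (fun i => ¬ p i) m (i0 + 2 * t)) ∨
        Inv (sel p m (i0 + 2 * t)) (sel (fun i => ¬ p i) m (i0 + 2 * t))) := by
    intro t
    induction t with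
    | zero => exact ⟨hi0, Or.inr (hbase m)⟩
    | succ t ih =>
      obtain ⟨hpi, ih⟩ := ih
      set i := i0 + 2 * t with hi
      have hi2 : i0 + 2 * (t + 1) = i + 1 + 1 := by omega
      rw [hi2]
      have hpn : ¬ p (i + 1) := by rw [hp]; exact fun h => h hpi
      refine ⟨(hp (i + 1)).mpr hpn, ?_⟩
      have e1 : sel p m (i + 1 + 1) = insert (m i) (sel p m i) := by
        rw [sel_succ_neg hpn, sel_succ_pos hpi]
      have e2 : sel (fun i => ¬ p i) m (i + 1 + 1) =
          insert (m (i + 1)) (sel (fun i => ¬ p i) m i) := by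
        rw [sel_succ_pos (p := fun i => ¬ p i) hpn,
          sel_succ_neg (p := fun i => ¬ p i) (fun h => h hpi)]
      rcases ih with hHC | hInv
      · left
        rw [e2]
        exact hmono _ _ (subset_insert _ _) hHC
      · have hill := hlp i hpi
        have hnG : m i ∉ sel p m i := by
          intro h
          obtain ⟨j, hj, _, h2⟩ := mem_sel.mp h
          exact hill.2 j hj h2
        have hnS : m i ∉ sel (fun i => ¬ p i) m i := by
          intro h
          obtain ⟨j, hj, _, h2⟩ := mem_sel.mp h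
          exact hill.2 j hj h2
        obtain ⟨_, y, hy1, hy2, hy3, hy4⟩ := hstep _ _ hInv (m i) hnG hnS
        obtain ⟨h1, h2, h3⟩ := hresp (List.ofFn (fun j : Fin (i + 1) => m j))
        rw [← hmn (i + 1) hpn, hlG, hlS] at h2
        rw [← hmn (i + 1) hpn] at h1
        rw [← hmn (i + 1) hpn, hlG, hlS] at h3
        have e3 : sel p m (i + 1) = insert (m i) (sel p m i) := sel_succ_pos hpi
        have e4 : sel (fun i => ¬ p i) m (i + 1) = sel (fun i => ¬ p i) m i :=
          sel_succ_neg (p := fun i => ¬ p i) (fun h => h hpi)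
        rw [e3, e4] at h3
        rw [e1, e2]
        apply h3
        refine ⟨y, hy1, ?_, hy4⟩
        rw [mem_union]
        rintro (h | h)
        · exact hy2 h
        · exact hy3 h
  intro M hM hpM hHC
  obtain ⟨t, ht⟩ : ∃ t, M = i0 + 2 * t := by
    obtain ⟨r, hr⟩ := Nat.even_or_odd' (M - i0)
    rcases hr with hr | hr
    · exact ⟨r, by omega⟩
    · exfalso
      have h1 : M = (i0 + 2 * r) + 1 := by omega
      rw [h1, hp] at hpM
      exact hpM (claim r).1
  rcases (claim t).2 with h | hInv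
  · rw [ht]; exact h
  · exfalso
    rw [← ht] at hInv
    have hill := hlp M hpM
    have hnG : m M ∉ sel p m M := by
      intro h
      obtain ⟨j, hj, _, h2⟩ := mem_sel.mp h
      exact hill.2 j hj h2
    have hnS : m M ∉ sel (fun i => ¬ p i) m M := by
      intro h
      obtain ⟨j, hj, _, h2⟩ := mem_sel.mp h
      exact hill.2 j hj h2
    have := (hstep _ _ hInv (m M) hnG hnS).1
    rw [← sel_succ_pos hpM] at this
    exact this hHC

end Pool.Agent.Lib.MP_9571c3_co
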